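import Pool.Agent.Helper97.Kap.Tile

set_option autoImplicit false
set_option linter.unusedSimpArgs false

namespace Pool.Agent.Helper97.Kap

open Complex

/-- upper half-space coordinates -/
def U : Type := {p : ℂ × ℝ × ℝ // 0 < p.2.2}

namespace U

/-- first coordinate -/
def z (p : U) : ℂ := p.1.1
/-- second coordinate -/
def y (p : U) : ℝ := p.1.2.1
/-- height -/
def t (p : U) : ℝ := p.1.2.2

lemma t_pos (p : U) : 0 < p.t := p.2

lemma ext' {p q : U} (h1 : p.z = q.z) (h2 : p.y = q.y) (h3 : p.t = q.t) : p = q :=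
  Subtype.ext (Prod.ext h1 (Prod.ext h2 h3))

/-- constructor -/
def mk (z : ℂ) (y t : ℝ) (ht : 0 < t) : U := ⟨(z, y, t), ht⟩

@[simp] lemma mk_z (z : ℂ) (y t : ℝ) (ht : 0 < t) : (mk z y t ht).z = z := rfl
@[simp] lemma mk_y (z : ℂ) (y t : ℝ) (ht : 0 < t) : (mk z y t ht).y = y := rfl
@[simp] lemma mk_t (z : ℂ) (y t : ℝ) (ht : 0 < t) : (mk z y t ht).t = t := rfl

/-- cosh of the distance in the upper half-space -/
noncomputable def C (p q : U) : ℝ :=
  1 + (normSq (p.z - q.z) + (p.y - q.y) ^ 2 + (p.t - q.t) ^ 2) / (2 * p.t * q.t)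

/-- squared distance to a boundary point -/
noncomputable def N (c : ℂ) (p : U) : ℝ := normSq (p.z - c) + p.y ^ 2 + p.t ^ 2

lemma N_pos (c : ℂ) (p : U) : 0 < N c p := by
  have := p.t_pos
  have := normSq_nonneg (p.z - c)
  unfold N
  positivity

end U

/-- from the upper half-space to hyperbolic space -/
noncomputable def toHyp (p : U) : Hyp 4 :=
  ofVec (WithLp.toLp 2 ![p.z.re / p.t, p.z.im / p.t, p.y / p.t,
    (normSq p.z + p.y ^ 2 + p.t ^ 2 - 1) / (2 * p.t)])

lemma toHyp_0 (p : U) : vec (toHyp p) 0 = p.z.re / p.t := rfl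
lemma toHyp_1 (p : U) : vec (toHyp p) 1 = p.z.im / p.t := rfl
lemma toHyp_2 (p : U) : vec (toHyp p) 2 = p.y / p.t := rfl
lemma toHyp_3 (p : U) : vec (toHyp p) 3 = (normSq p.z + p.y ^ 2 + p.t ^ 2 - 1) / (2 * p.t) := rfl

lemma inner_four (x y : EuclideanSpace ℝ (Fin 4)) :
    inner ℝ x y = x 0 * y 0 + x 1 * y 1 + x 2 * y 2 + x 3 * y 3 := by
  rw [PiLp.inner_apply, Fin.sum_univ_four]
  simp [mul_comm]

lemma norm_sq_four (x : EuclideanSpace ℝ (Fin 4)) :
    ‖x‖ ^ 2 = x 0 ^ 2 + x 1 ^ 2 + x 2 ^ 2 + x 3 ^ 2 := by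
  rw [← real_inner_self_eq_norm_sq, inner_four]
  ring

lemma s_toHyp (p : U) : Model.s (vec (toHyp p)) =
    (1 + normSq p.z + p.y ^ 2 + p.t ^ 2) / (2 * p.t) := by
  have ht := p.t_pos
  have hz := normSq_nonneg p.z
  have h1 : Model.s (vec (toHyp p)) ^ 2 = ((1 + normSq p.z + p.y ^ 2 + p.t ^ 2) / (2 * p.t)) ^ 2 := by
    rw [Model.s_sq, norm_sq_four]
    unfold toHyp
    rw [vec_ofVec]
    simp only [PiLp.toLp_apply, Matrix.cons_val]
    rw [normSq_apply]
    field_simp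
    ring
  exact (pow_left_inj₀ (Model.s_pos _).le (by positivity) two_ne_zero).mp h1

lemma B_toHyp (p q : U) : Model.B (vec (toHyp p)) (vec (toHyp q)) = U.C p q := by
  have ht := p.t_pos
  have hq := q.t_pos
  unfold Model.B
  rw [s_toHyp, s_toHyp, inner_four]
  unfold toHyp U.C
  rw [vec_ofVec, vec_ofVec]
  simp only [PiLp.toLp_apply, Matrix.cons_val]
  rw [normSq_apply, normSq_apply, normSq_apply, sub_re, sub_im]
  field_simp
  ring

lemma cosh_dist_toHyp (p q : U) : Real.cosh (dist (toHyp p) (toHyp q)) = U.C p q := by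
  rw [cosh_dist_vec, B_toHyp]

lemma s_sub_pos (x : EuclideanSpace ℝ (Fin 4)) : 0 < Model.s x - x 3 := by
  have h1 := Model.s_sq x
  have h2 := Model.s_pos x
  rw [norm_sq_four] at h1
  by_contra hcon
  push Not at hcon
  have h3 : Model.s x ≤ x 3 := by linarith
  nlinarith [sq_nonneg (x 0), sq_nonneg (x 1), sq_nonneg (x 2)]

/-- to the upper half-space -/
noncomputable def toU (X : Hyp 4) : U :=
  U.mk (⟨vec X 0 / (Model.s (vec X) - vec X 3), vec X 1 / (Model.s (vec X) - vec X 3)⟩ : ℂ)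
    (vec X 2 / (Model.s (vec X) - vec X 3)) (1 / (Model.s (vec X) - vec X 3))
    (by have := s_sub_pos (vec X); positivity)

lemma toHyp_toU (X : Hyp 4) : toHyp (toU X) = X := by
  have h0 := s_sub_pos (vec X)
  have h1 := Model.s_sq (vec X)
  rw [norm_sq_four] at h1
  have c0 : vec (toHyp (toU X)) 0 = vec X 0 := by
    rw [toHyp_0]
    change vec X 0 / (Model.s (vec X) - vec X 3) / (1 / (Model.s (vec X) - vec X 3)) = _
    field_simp
  have c1 : vec (toHyp (toU X)) 1 = vec X 1 := by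
    rw [toHyp_1]
    change vec X 1 / (Model.s (vec X) - vec X 3) / (1 / (Model.s (vec X) - vec X 3)) = _
    field_simp
  have c2 : vec (toHyp (toU X)) 2 = vec X 2 := by
    rw [toHyp_2]
    change vec X 2 / (Model.s (vec X) - vec X 3) / (1 / (Model.s (vec X) - vec X 3)) = _
    field_simp
  have c3 : vec (toHyp (toU X)) 3 = vec X 3 := by
    rw [toHyp_3]
    change (normSq ⟨vec X 0 / (Model.s (vec X) - vec X 3), vec X 1 / (Model.s (vec X) - vec X 3)⟩ +
      (vec X 2 / (Model.s (vec X) - vec X 3)) ^ 2 + (1 / (Model.s (vec X) - vec X 3)) ^ 2 - 1) /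
      (2 * (1 / (Model.s (vec X) - vec X 3))) = _
    rw [normSq_mk]
    set S := Model.s (vec X)
    have h3 : S - vec X 3 ≠ 0 := h0.ne'
    field_simp
    nlinarith
  have h2 : vec (toHyp (toU X)) = vec X := by
    ext i
    fin_cases i
    · exact c0
    · exact c1
    · exact c2
    · exact c3
  exact h2

lemma toU_toHyp (p : U) : toU (toHyp p) = p := by
  have ht := p.t_pos
  have h3 : vec (toHyp p) 3 = (normSq p.z + p.y ^ 2 + p.t ^ 2 - 1) / (2 * p.t) := by
    unfold toHyp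
    rw [vec_ofVec]
    simp only [PiLp.toLp_apply, Matrix.cons_val]
  have h4 : Model.s (vec (toHyp p)) - vec (toHyp p) 3 = 1 / p.t := by
    rw [s_toHyp, h3]
    field_simp
    ring
  apply U.ext'
  · unfold toU
    rw [U.mk_z, h4]
    apply Complex.ext
    · change vec (toHyp p) 0 / (1 / p.t) = _
      rw [toHyp_0]
      field_simp
    · change vec (toHyp p) 1 / (1 / p.t) = _
      rw [toHyp_1]
      field_simp
  · unfold toU
    rw [U.mk_y, h4, toHyp_2]
    field_simp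
  · unfold toU
    rw [U.mk_t, h4]
    field_simp

/-- the coordinate equivalence -/
noncomputable def φ : Hyp 4 ≃ U where
  toFun := toU
  invFun := toHyp
  left_inv := toHyp_toU
  right_inv := toU_toHyp

lemma cosh_dist_φ (X Y : Hyp 4) : Real.cosh (dist X Y) = U.C (φ X) (φ Y) := by
  rw [← cosh_dist_toHyp]
  change _ = Real.cosh (dist (toHyp (toU X)) (toHyp (toU Y)))
  rw [toHyp_toU, toHyp_toU]

lemma dist_eq_of_C {X Y X' Y' : Hyp 4} (h : U.C (φ X) (φ Y) = U.C (φ X') (φ Y')) :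
    dist X Y = dist X' Y' := by
  rw [← cosh_dist_φ, ← cosh_dist_φ] at h
  apply le_antisymm
  · have := h.le
    rwa [Real.cosh_le_cosh, abs_of_nonneg dist_nonneg, abs_of_nonneg dist_nonneg] at this
  · have := h.ge
    rwa [Real.cosh_le_cosh, abs_of_nonneg dist_nonneg, abs_of_nonneg dist_nonneg] at this

/-- isometries from coordinate maps -/
noncomputable def isoOf (e : U ≃ U) (he : ∀ p q, U.C (e p) (e q) = U.C p q) : Hyp 4 ≃ᵢ Hyp 4 where
  toEquiv := (φ.trans e).trans φ.symm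
  isometry_toFun := Isometry.of_dist_eq fun X Y => by
    apply dist_eq_of_C
    simp only [Equiv.toFun_as_coe, Equiv.trans_apply, Equiv.apply_symm_apply]
    exact he _ _

lemma φ_isoOf (e : U ≃ U) (he : ∀ p q, U.C (e p) (e q) = U.C p q) (X : Hyp 4) :
    φ (isoOf e he X) = e (φ X) := by
  change φ (φ.symm (e (φ X))) = _
  rw [Equiv.apply_symm_apply]

/-- screw motion -/
noncomputable def screwU (ζ : ℂ) (hζ : normSq ζ = 1) : U ≃ U where
  toFun p := U.mk (ζ * p.z) (p.y + 1) p.t p.t_pos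
  invFun p := U.mk (ζ⁻¹ * p.z) (p.y - 1) p.t p.t_pos
  left_inv p := by
    have h0 : ζ ≠ 0 := by
      rintro rfl
      simp at hζ
    apply U.ext'
    · simp [inv_mul_cancel_left₀ h0]
    · simp
    · simp
  right_inv p := by
    have h0 : ζ ≠ 0 := by
      rintro rfl
      simp at hζ
    apply U.ext'
    · simp [mul_inv_cancel_left₀ h0]
    · simp
    · simp

lemma screwU_C (ζ : ℂ) (hζ : normSq ζ = 1) (p q : U) :
    U.C (screwU ζ hζ p) (screwU ζ hζ q) = U.C p q := by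
  unfold U.C screwU
  simp only [Equiv.coe_fn_mk, U.mk_z, U.mk_y, U.mk_t]
  rw [← mul_sub, normSq_mul, hζ, one_mul]
  congr 3
  ring

/-- inversion data -/
noncomputable def sig (c c' : ℂ) (p : U) : U :=
  U.mk (c' - ((4 / U.N c p : ℝ) : ℂ) * (p.z - c)) (-(4 * p.y / U.N c p)) (4 * p.t / U.N c p)
    (by have := p.t_pos; have := U.N_pos c p; positivity)

lemma N_sig (c c' : ℂ) (p : U) : U.N c' (sig c c' p) = 16 / U.N c p := by
  have h1 := U.N_pos c p
  change normSq (c' - ((4 / U.N c p : ℝ) : ℂ) * (p.z - c) - c') + (-(4 * p.y / U.N c p)) ^ 2 +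
    (4 * p.t / U.N c p) ^ 2 = _
  have e1 : c' - ((4 / U.N c p : ℝ) : ℂ) * (p.z - c) - c' = -(((4 / U.N c p : ℝ) : ℂ) * (p.z - c)) := by
    ring
  rw [e1, normSq_neg, normSq_mul, normSq_ofReal]
  have e2 : U.N c p = normSq (p.z - c) + p.y ^ 2 + p.t ^ 2 := rfl
  have e3 : 4 / U.N c p * (4 / U.N c p) * normSq (p.z - c) + (-(4 * p.y / U.N c p)) ^ 2 +
      (4 * p.t / U.N c p) ^ 2 = 16 * (normSq (p.z - c) + p.y ^ 2 + p.t ^ 2) / (U.N c p) ^ 2 := by
    field_simp
    ring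
  rw [e3, ← e2]
  field_simp

lemma sig_sig (c c' : ℂ) (p : U) : sig c' c (sig c c' p) = p := by
  have h1 := U.N_pos c p
  have h2 := N_sig c c' p
  have h3 : ∀ q : U, (sig c' c q).z = c - ((4 / U.N c' q : ℝ) : ℂ) * (q.z - c') := fun _ => rfl
  have h4 : ∀ q : U, (sig c' c q).y = -(4 * q.y / U.N c' q) := fun _ => rfl
  have h5 : ∀ q : U, (sig c' c q).t = 4 * q.t / U.N c' q := fun _ => rfl
  apply U.ext'
  · rw [h3, h2]
    change c - ((4 / (16 / U.N c p) : ℝ) : ℂ) * (c' - ((4 / U.N c p : ℝ) : ℂ) * (p.z - c) - c') = _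
    have e1 : ((4 / (16 / U.N c p) : ℝ) : ℂ) * ((4 / U.N c p : ℝ) : ℂ) = 1 := by
      rw [← ofReal_mul]
      have : 4 / (16 / U.N c p) * (4 / U.N c p) = 1 := by field_simp; norm_num
      rw [this, ofReal_one]
    linear_combination (p.z - c) * e1
  · rw [h4, h2]
    change -(4 * (-(4 * p.y / U.N c p)) / (16 / U.N c p)) = _
    field_simp
    ring
  · rw [h5, h2]
    change 4 * (4 * p.t / U.N c p) / (16 / U.N c p) = _
    field_simp
    ring

lemma sig_C (c c' : ℂ) (p q : U) : U.C (sig c c' p) (sig c c' q) = U.C p q := by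
  have hp := U.N_pos c p
  have hq := U.N_pos c q
  have tp := p.t_pos
  have tq := q.t_pos
  have e1 : (sig c c' p).z - (sig c c' q).z =
      ((4 / U.N c q : ℝ) : ℂ) * (q.z - c) - ((4 / U.N c p : ℝ) : ℂ) * (p.z - c) := by
    change (c' - ((4 / U.N c p : ℝ) : ℂ) * (p.z - c)) - (c' - ((4 / U.N c q : ℝ) : ℂ) * (q.z - c)) = _
    ring
  have key : normSq ((sig c c' p).z - (sig c c' q).z) + ((sig c c' p).y - (sig c c' q).y) ^ 2 +
      ((sig c c' p).t - (sig c c' q).t) ^ 2 =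
      16 * (normSq (p.z - q.z) + (p.y - q.y) ^ 2 + (p.t - q.t) ^ 2) / (U.N c p * U.N c q) := by
    rw [e1]
    change normSq _ + (-(4 * p.y / U.N c p) - -(4 * q.y / U.N c q)) ^ 2 +
      (4 * p.t / U.N c p - 4 * q.t / U.N c q) ^ 2 = _
    have ep : U.N c p = (p.z.re - c.re) ^ 2 + (p.z.im - c.im) ^ 2 + p.y ^ 2 + p.t ^ 2 := by
      unfold U.N; rw [normSq_apply, sub_re, sub_im]; ring
    have eq : U.N c q = (q.z.re - c.re) ^ 2 + (q.z.im - c.im) ^ 2 + q.y ^ 2 + q.t ^ 2 := by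
      unfold U.N; rw [normSq_apply, sub_re, sub_im]; ring
    rw [normSq_apply, normSq_apply]
    simp only [sub_re, sub_im, re_ofReal_mul, im_ofReal_mul]
    set P := U.N c p
    set Q := U.N c q
    have hP0 : P ≠ 0 := hp.ne'
    have hQ0 : Q ≠ 0 := hq.ne'
    field_simp
    -- polynomial identity modulo the definitions of P and Q
    have : ∀ a b y t a' b' y' t' : ℝ, P = a ^ 2 + b ^ 2 + y ^ 2 + t ^ 2 →
        Q = a' ^ 2 + b' ^ 2 + y' ^ 2 + t' ^ 2 →
        (P * a' - Q * a) ^ 2 + (P * b' - Q * b) ^ 2 + (P * y' - Q * y) ^ 2 + (P * t' - Q * t) ^ 2 =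
        P * Q * ((a - a') ^ 2 + (b - b') ^ 2 + (y - y') ^ 2 + (t - t') ^ 2) := by
      intro a b y t a' b' y' t' h1 h2
      have e3 : (P * a' - Q * a) ^ 2 + (P * b' - Q * b) ^ 2 + (P * y' - Q * y) ^ 2 +
          (P * t' - Q * t) ^ 2 = P ^ 2 * (a' ^ 2 + b' ^ 2 + y' ^ 2 + t' ^ 2) +
          Q ^ 2 * (a ^ 2 + b ^ 2 + y ^ 2 + t ^ 2) -
          2 * P * Q * (a * a' + b * b' + y * y' + t * t') := by ring
      rw [e3, ← h1, ← h2]
      have e4 : (a - a') ^ 2 + (b - b') ^ 2 + (y - y') ^ 2 + (t - t') ^ 2 =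
          (a ^ 2 + b ^ 2 + y ^ 2 + t ^ 2) + (a' ^ 2 + b' ^ 2 + y' ^ 2 + t' ^ 2) -
          2 * (a * a' + b * b' + y * y' + t * t') := by ring
      rw [e4, ← h1, ← h2]
      ring
    have h3 := this (p.z.re - c.re) (p.z.im - c.im) p.y p.t (q.z.re - c.re) (q.z.im - c.im) q.y q.t
      ep eq
    nlinarith [h3]
  unfold U.C
  rw [key]
  change 1 + _ / (2 * (4 * p.t / U.N c p) * (4 * q.t / U.N c q)) = _
  field_simp
  ring

/-- inversion followed by a reflection and a translation -/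
noncomputable def sigU (c c' : ℂ) : U ≃ U where
  toFun := sig c c'
  invFun := sig c' c
  left_inv := sig_sig c c'
  right_inv := sig_sig c' c

end Pool.Agent.Helper97.Kap
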