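import Pool.Agent.Helper97.Kap.Model

set_option autoImplicit false

namespace Pool.Agent.Helper97.Kap

open Filter Topology

/-- The hyperbolic distance on `ℝⁿ` in the hyperboloid model: the point `x` of `ℝⁿ` stands for the
point `(√(1 + |x|²), x)` of the hyperboloid, and
`cosh d(x, y) = √(1 + |x|²) √(1 + |y|²) - ⟨x, y⟩`. -/
noncomputable def hypDist {n : ℕ} (x y : EuclideanSpace ℝ (Fin n)) : ℝ :=
  Real.arcosh (√(1 + ‖x‖ ^ 2) * √(1 + ‖y‖ ^ 2) - inner ℝ x y)

/-- Hyperbolic `n`-space (hyperboloid model, projected to `ℝⁿ`). -/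
def Hyp (n : ℕ) : Type := EuclideanSpace ℝ (Fin n)

noncomputable instance (n : ℕ) : MetricSpace (Hyp n) where
  dist x y := hypDist (n := n) x y
  dist_self x := Model.hd_self (E := EuclideanSpace ℝ (Fin n)) x
  dist_comm x y := Model.hd_symm (E := EuclideanSpace ℝ (Fin n)) x y
  dist_triangle x y z := Model.hd_triangle (E := EuclideanSpace ℝ (Fin n)) x y z
  eq_of_dist_eq_zero := fun {x y} h => Model.eq_of_hd_eq_zero (E := EuclideanSpace ℝ (Fin n))
    (x := x) (y := y) h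

/-- The base point of hyperbolic space. -/
def origin (n : ℕ) : Hyp n := (0 : EuclideanSpace ℝ (Fin n))

/-- The unit speed geodesic ray from the base point towards the point `ξ` of the sphere at
infinity `S^(n-1)`, the unit sphere of `ℝⁿ`. -/
noncomputable def ray {n : ℕ} (ξ : EuclideanSpace ℝ (Fin n)) (t : ℝ) : Hyp n :=
  (Real.sinh t • ξ : EuclideanSpace ℝ (Fin n))

/-- The conical limit set of a group of isometries, a subset of the unit sphere of `ℝⁿ`. -/
def conicalLimitSet {n : ℕ} (G : Subgroup (Hyp n ≃ᵢ Hyp n)) : Set (EuclideanSpace ℝ (Fin n)) :=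
  {ξ | ‖ξ‖ = 1 ∧ ∃ (C : ℝ) (g : ℕ → (Hyp n ≃ᵢ Hyp n)) (t : ℕ → ℝ), (∀ k, g k ∈ G) ∧
    Tendsto t atTop atTop ∧ ∀ k, dist (g k (origin n)) (ray ξ (t k)) ≤ C}

/-- A group of isometries of hyperbolic space is discrete: orbits are locally finite, with finite
stabilisers. -/
def IsDiscreteGroup {n : ℕ} (G : Subgroup (Hyp n ≃ᵢ Hyp n)) : Prop :=
  ∀ (x : Hyp n) (r : ℝ), {g : Hyp n ≃ᵢ Hyp n | g ∈ G ∧ dist x (g x) ≤ r}.Finite

/-- `G` is torsion-free. -/
def IsTorsionFreeGroup {n : ℕ} (G : Subgroup (Hyp n ≃ᵢ Hyp n)) : Prop :=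
  ∀ g ∈ G, ∀ k : ℕ, 0 < k → g ^ k = 1 → g = 1

/-- The group `Γ` contains a copy of `ℤ²`. -/
def ContainsZSquare (Γ : Type) [Group Γ] : Prop :=
  ∃ f : Multiplicative (ℤ × ℤ) →* Γ, Function.Injective f

/-- `G` contains no copy of `ℤ²`. For a torsion-free group this says that it has no abelian
subgroup of rank at least two. -/
def HasNoZSquare {n : ℕ} (G : Subgroup (Hyp n ≃ᵢ Hyp n)) : Prop := ¬ ContainsZSquare G

/-- `G` is finitely generated. -/
def IsFinGen {n : ℕ} (G : Subgroup (Hyp n ≃ᵢ Hyp n)) : Prop := Group.FG G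

/-- `G` is a free group of rank two. -/
def IsFreeOfRankTwo {n : ℕ} (G : Subgroup (Hyp n ≃ᵢ Hyp n)) : Prop :=
  Nonempty (FreeGroup (Fin 2) ≃* G)

/-- Closed half-spaces of hyperbolic space: the points at least as close to `u` as to `v`, for
distinct points `u`, `v`. -/
def IsHalfSpace {n : ℕ} (H : Set (Hyp n)) : Prop :=
  ∃ u v : Hyp n, u ≠ v ∧ H = {x | dist x u ≤ dist x v}

/-- `P` is a fundamental domain for `G`. -/
def IsFundDomain {n : ℕ} (G : Subgroup (Hyp n ≃ᵢ Hyp n)) (P : Set (Hyp n)) : Prop :=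
  (∀ x, ∃ g ∈ G, g x ∈ P) ∧ ∀ g ∈ G, g ≠ 1 → Disjoint (g '' interior P) (interior P)

/-- `G` is a classical Schottky-type group: there are closed half-spaces `B (inl i)`, `B (inr i)`,
`i < k`, with pairwise disjoint interiors, and elements `g i` of `G` mapping the exterior of
`B (inl i)` onto the interior of `B (inr i)`, such that the region outside the open half-spaces is a
fundamental domain for `G`. -/
def IsClassicalSchottky {n : ℕ} (G : Subgroup (Hyp n ≃ᵢ Hyp n)) : Prop :=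
  ∃ (k : ℕ) (B : Fin k ⊕ Fin k → Set (Hyp n)) (g : Fin k → (Hyp n ≃ᵢ Hyp n)),
    (∀ j, IsHalfSpace (B j)) ∧
    (Pairwise fun i j => Disjoint (interior (B i)) (interior (B j))) ∧
    (∀ i, g i ∈ G ∧ g i '' (B (Sum.inl i))ᶜ = interior (B (Sum.inr i))) ∧
    IsFundDomain G {x | ∀ j, x ∉ interior (B j)}

lemma dist_def {n : ℕ} (x y : Hyp n) :
    dist x y = Model.hd (E := EuclideanSpace ℝ (Fin n)) x y := rfl

lemma cosh_dist {n : ℕ} (x y : Hyp n) :
    Real.cosh (dist x y) = Model.B (E := EuclideanSpace ℝ (Fin n)) x y :=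
  Model.cosh_hd (E := EuclideanSpace ℝ (Fin n)) x y

/-- Sanity check: `ray ξ` is a unit speed geodesic. -/
lemma dist_ray {n : ℕ} {ξ : EuclideanSpace ℝ (Fin n)} (hξ : ‖ξ‖ = 1) (t t' : ℝ) :
    dist (ray ξ t) (ray ξ t') = |t - t'| := Model.hd_ray hξ t t'

end Pool.Agent.Helper97.Kap
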