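import Pool.Agent.Helper97.Kap.Defs

set_option autoImplicit false

namespace Pool.Agent.Helper97.Kap

open Filter Topology MeasureTheory ENNReal NNReal

variable {n : ℕ}

lemma shadow_dist' {E : Type*} [NormedAddCommGroup E] [InnerProductSpace ℝ E]
    {ξ : E} (hξ : ‖ξ‖ = 1) {y : E} {t C : ℝ} (ht : 1 ≤ t)
    (h : Model.hd y (Real.sinh t • ξ) ≤ C) :
    dist ξ ((1 / Model.s y) • y) ≤ 4 * Real.exp C * Real.exp (-Model.hd 0 y) := by
  set D := Model.hd 0 y with hD
  have hC : 0 ≤ C := (Model.hd_nonneg _ _).trans h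
  have hD0 : 0 ≤ D := Model.hd_nonneg _ _
  have hcD : Real.cosh D = Model.s y := by
    rw [hD, Model.cosh_hd]; exact Model.B_zero y
  set S := Model.s y with hS
  have hS1 : 1 ≤ S := Model.one_le_s _
  set I : ℝ := inner ℝ y ξ with hI
  have hcosh : Real.cosh (Model.hd y (Real.sinh t • ξ)) = S * Real.cosh t - Real.sinh t * I := by
    rw [Model.cosh_hd]
    unfold Model.B
    rw [Model.s_smul_sinh hξ, inner_smul_right]
  have h1 : S * Real.cosh t - Real.sinh t * I ≤ Real.cosh C := by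
    rw [← hcosh, Real.cosh_le_cosh, abs_of_nonneg (Model.hd_nonneg _ _), abs_of_nonneg hC]
    exact h
  have hsh : 0 < Real.sinh t := Real.sinh_pos_iff.mpr (by linarith)
  have hct : Real.sinh t ≤ Real.cosh t := (Real.sinh_lt_cosh t).le
  have h2 : S * Real.sinh t - Real.cosh C ≤ Real.sinh t * I := by nlinarith
  -- distance squared
  have h3 : dist ξ ((1 / S) • y) ^ 2 = 2 - 2 * I / S - 1 / S ^ 2 := by
    rw [dist_eq_norm, ← real_inner_self_eq_norm_sq]
    rw [inner_sub_left, inner_sub_right, inner_sub_right, inner_smul_left, inner_smul_right,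
      inner_smul_left, inner_smul_right, real_inner_self_eq_norm_sq, real_inner_self_eq_norm_sq,
      hξ, real_inner_comm y ξ]
    simp only [conj_trivial]
    have h5 : ‖y‖ ^ 2 = S ^ 2 - 1 := by
      rw [hS, Model.s_sq]; ring
    rw [h5, ← hI]
    field_simp
    ring
  have hSpos : 0 < S := by linarith
  have h4 : dist ξ ((1 / S) • y) ^ 2 ≤ 2 * Real.cosh C / (S * Real.sinh t) := by
    rw [h3]
    have h6 : 2 - 2 * I / S ≤ 2 * Real.cosh C / (S * Real.sinh t) := by
      rw [le_div_iff₀ (by positivity)]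
      have h7 : (2 - 2 * I / S) * (S * Real.sinh t) = 2 * (S * Real.sinh t - Real.sinh t * I) := by
        field_simp
      rw [h7]
      linarith
    have h8 : 0 ≤ 1 / S ^ 2 := by positivity
    linarith
  have h9 : Real.cosh C ≤ Real.exp C := by
    rw [Real.cosh_eq]
    have : Real.exp (-C) ≤ Real.exp C := Real.exp_le_exp.mpr (by linarith)
    linarith
  have h10 : Real.exp D / 2 ≤ S := by
    rw [← hcD, Real.cosh_eq]
    have := Real.exp_pos (-D)
    linarith
  have h11 : Real.exp t / 4 ≤ Real.sinh t := by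
    rw [Real.sinh_eq]
    have h12 : Real.exp (-t) ≤ Real.exp (-1) := Real.exp_le_exp.mpr (by linarith)
    have h13 : Real.exp 1 ≤ Real.exp t := Real.exp_le_exp.mpr ht
    have h14 := Real.exp_one_gt_d9
    have h15 : Real.exp (-1) < 0.4 := by
      have := Real.exp_neg_one_lt_d9
      linarith
    nlinarith
  have h16 : D ≤ t + C := by
    have h17 : Model.hd 0 (Real.sinh t • ξ) = t := by
      have h18 := Model.hd_ray hξ 0 t
      rw [Real.sinh_zero, zero_smul, zero_sub, abs_neg, abs_of_nonneg (by linarith)] at h18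
      exact h18
    have h19 := Model.hd_triangle 0 (Real.sinh t • ξ) y
    rw [Model.hd_symm (Real.sinh t • ξ) y] at h19
    linarith
  have h20 : Real.exp D ≤ Real.exp t * Real.exp C := by
    rw [← Real.exp_add]; exact Real.exp_le_exp.mpr h16
  have h21 : dist ξ ((1 / S) • y) ^ 2 ≤ (4 * Real.exp C * Real.exp (-D)) ^ 2 := by
    refine h4.trans ?_
    rw [div_le_iff₀ (by positivity)]
    have e1 : Real.exp (-D) * Real.exp D = 1 := by rw [← Real.exp_add]; simp
    have hDp := Real.exp_pos D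
    have hCp := Real.exp_pos C
    have htp := Real.exp_pos t
    have hnp := Real.exp_pos (-D)
    have e2 : Real.exp D / 2 * (Real.exp t / 4) ≤ S * Real.sinh t :=
      mul_le_mul h10 h11 (by positivity) hSpos.le
    calc 2 * Real.cosh C ≤ 2 * Real.exp C := by linarith
      _ = 2 * Real.exp C * (Real.exp (-D) * Real.exp D) ^ 2 := by rw [e1]; ring
      _ = 2 * Real.exp C * Real.exp (-D) ^ 2 * (Real.exp D * Real.exp D) := by ring
      _ ≤ 2 * Real.exp C * Real.exp (-D) ^ 2 * (Real.exp D * (Real.exp t * Real.exp C)) := by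
          apply mul_le_mul_of_nonneg_left _ (by positivity)
          exact mul_le_mul_of_nonneg_left h20 hDp.le
      _ = (4 * Real.exp C * Real.exp (-D)) ^ 2 * (Real.exp D / 2 * (Real.exp t / 4)) := by ring
      _ ≤ (4 * Real.exp C * Real.exp (-D)) ^ 2 * (S * Real.sinh t) :=
          mul_le_mul_of_nonneg_left e2 (by positivity)
  exact (pow_le_pow_iff_left₀ dist_nonneg (by positivity) two_ne_zero).mp h21

/-- centre of the shadow of a point -/
noncomputable def shadow (y : Hyp n) : EuclideanSpace ℝ (Fin n) :=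
  (fun x : EuclideanSpace ℝ (Fin n) => (1 / Model.s x) • x) y

lemma shadow_dist {ξ : EuclideanSpace ℝ (Fin n)} (hξ : ‖ξ‖ = 1) {y : Hyp n} {t C : ℝ} (ht : 1 ≤ t)
    (h : dist y (ray ξ t) ≤ C) :
    dist ξ (shadow y) ≤ 4 * Real.exp C * Real.exp (-dist (origin n) y) :=
  shadow_dist' (E := EuclideanSpace ℝ (Fin n)) hξ ht h

lemma dist_origin_ray {ξ : EuclideanSpace ℝ (Fin n)} (hξ : ‖ξ‖ = 1) {t : ℝ} (ht : 0 ≤ t) :
    dist (origin n) (ray ξ t) = t := by
  have h18 := Model.hd_ray hξ 0 t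
  rw [Real.sinh_zero, zero_smul, zero_sub, abs_neg, abs_of_nonneg ht] at h18
  exact h18

/-- The Hausdorff dimension of the conical limit set is at most any exponent of convergence. -/
theorem dimH_conical_le (G : Subgroup (Hyp n ≃ᵢ Hyp n)) (σ : ℝ≥0) (hσ : 0 < σ)
    (hsum : ∑' g : G, ENNReal.ofReal (Real.exp (-(σ : ℝ) *
      dist (origin n) ((g : Hyp n ≃ᵢ Hyp n) (origin n)))) ≠ ∞) :
    dimH (conicalLimitSet G) ≤ σ := by
  classical
  have hcount : Countable G := by
    have h1 := Summable.countable_support_ennreal hsum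
    have h2 : Function.support (fun g : G => ENNReal.ofReal (Real.exp (-(σ : ℝ) *
      dist (origin n) ((g : Hyp n ≃ᵢ Hyp n) (origin n))))) = Set.univ := by
      ext g
      simp only [Function.mem_support, Set.mem_univ, iff_true, ne_eq, ENNReal.ofReal_eq_zero, not_le]
      exact Real.exp_pos _
    rw [h2] at h1
    exact Set.countable_univ_iff.mp h1
  let L : ℕ → Set (EuclideanSpace ℝ (Fin n)) := fun C =>
    {ξ | ‖ξ‖ = 1 ∧ ∃ (g : ℕ → (Hyp n ≃ᵢ Hyp n)) (t : ℕ → ℝ), (∀ k, g k ∈ G) ∧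
      Tendsto t atTop atTop ∧ ∀ k, dist (g k (origin n)) (ray ξ (t k)) ≤ C}
  have hL : conicalLimitSet G ⊆ ⋃ C, L C := by
    rintro ξ ⟨h1, C, g, t, h2, h3, h4⟩
    obtain ⟨N, hN⟩ := exists_nat_ge C
    exact Set.mem_iUnion.mpr ⟨N, h1, g, t, h2, h3, fun k => (h4 k).trans hN⟩
  refine (dimH_mono hL).trans ?_
  rw [dimH_iUnion]
  refine iSup_le fun C => ?_
  apply dimH_le_of_hausdorffMeasure_ne_top
  let R : G → ℝ := fun g => 4 * Real.exp C *
    Real.exp (-dist (origin n) ((g : Hyp n ≃ᵢ Hyp n) (origin n)))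
  have hR : ∀ g, 0 ≤ R g := fun g => by positivity
  let f : G → ℝ≥0∞ := fun g => (2 * ENNReal.ofReal (R g)) ^ (σ : ℝ)
  have hσ' : (0 : ℝ) < σ := by exact_mod_cast hσ
  have hf : ∑' g, f g ≠ ∞ := by
    have h1 : ∀ g, f g = (ENNReal.ofReal (8 * Real.exp C)) ^ (σ : ℝ) *
        ENNReal.ofReal (Real.exp (-(σ : ℝ) *
          dist (origin n) ((g : Hyp n ≃ᵢ Hyp n) (origin n)))) := by
      intro g
      have e1 : (2 : ℝ≥0∞) * ENNReal.ofReal (R g) = ENNReal.ofReal (8 * Real.exp C) *
          ENNReal.ofReal (Real.exp (-dist (origin n) ((g : Hyp n ≃ᵢ Hyp n) (origin n)))) := by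
        rw [← ENNReal.ofReal_mul (by positivity)]
        have : (2 : ℝ≥0∞) = ENNReal.ofReal 2 := by simp
        rw [this, ← ENNReal.ofReal_mul (by norm_num)]
        congr 1
        simp only [R]
        ring
      simp only [f]
      rw [e1, ENNReal.mul_rpow_of_nonneg _ _ hσ'.le]
      congr 1
      rw [ENNReal.ofReal_rpow_of_pos (Real.exp_pos _), ← Real.exp_mul]
      congr 2
      ring
    simp_rw [h1]
    rw [ENNReal.tsum_mul_left]
    exact ENNReal.mul_ne_top (ENNReal.rpow_ne_top_of_nonneg hσ'.le ENNReal.ofReal_ne_top) hsum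
  let tail : Finset G → ℝ≥0∞ := fun F => ∑' b : {x // x ∉ F}, f b
  have htail : Tendsto tail atTop (𝓝 0) := ENNReal.tendsto_tsum_compl_atTop_zero hf
  let U : ∀ F : Finset G, {x // x ∉ F} → Set (EuclideanSpace ℝ (Fin n)) := fun F g =>
    Metric.closedEBall (shadow (((g : G) : Hyp n ≃ᵢ Hyp n) (origin n))) (ENNReal.ofReal (R g))
  have hdiam : ∀ F g, Metric.ediam (U F g) ≤ 2 * ENNReal.ofReal (R g) := fun F g =>
    Metric.ediam_closedEBall_le
  have hdiam2 : ∀ F g, Metric.ediam (U F g) ^ (σ : ℝ) ≤ f g := fun F g =>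
    ENNReal.rpow_le_rpow (hdiam F g) hσ'.le
  let r : Finset G → ℝ≥0∞ := fun F => tail F ^ (1 / (σ : ℝ))
  have hr : Tendsto r atTop (𝓝 0) := by
    have h1 : Tendsto (fun x : ℝ≥0∞ => x ^ (1 / (σ : ℝ))) (𝓝 0) (𝓝 (0 ^ (1 / (σ : ℝ)))) :=
      ENNReal.continuous_rpow_const.tendsto 0
    rw [ENNReal.zero_rpow_of_pos (by positivity)] at h1
    exact h1.comp htail
  have hcov : ∀ F : Finset G, L C ⊆ ⋃ i, U F i := by
    rintro F ξ ⟨h1, g, t, h2, h3, h4⟩
    -- a bound on the distances in F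
    obtain ⟨M, hM⟩ : ∃ M : ℝ, ∀ g ∈ F, dist (origin n) ((g : Hyp n ≃ᵢ Hyp n) (origin n)) ≤ M := by
      refine ⟨∑ g ∈ F, dist (origin n) ((g : Hyp n ≃ᵢ Hyp n) (origin n)), fun g hg => ?_⟩
      exact Finset.single_le_sum
        (f := fun g : G => dist (origin n) ((g : Hyp n ≃ᵢ Hyp n) (origin n)))
        (fun _ _ => dist_nonneg) hg
    obtain ⟨k, hk⟩ := ((tendsto_atTop.mp h3 (max 1 (M + C + 1))).exists)
    have hk1 : 1 ≤ t k := (le_max_left _ _).trans hk
    have hk2 : M + C + 1 ≤ t k := (le_max_right _ _).trans hk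
    let γ : G := ⟨g k, h2 k⟩
    have hγ : γ ∉ F := by
      intro hmem
      have h5 := hM γ hmem
      have h17 : dist (origin n) (ray ξ (t k)) = t k := dist_origin_ray h1 (by linarith)
      have h6 := dist_triangle (origin n) (g k (origin n)) (ray ξ (t k))
      have h7 := h4 k
      change dist (origin n) (g k (origin n)) ≤ M at h5
      linarith
    refine Set.mem_iUnion.mpr ⟨⟨γ, hγ⟩, ?_⟩
    change ξ ∈ Metric.closedEBall _ _
    rw [Metric.mem_closedEBall, edist_dist]
    exact ENNReal.ofReal_le_ofReal (shadow_dist h1 hk1 (h4 k))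
  have key : μH[(σ : ℝ)] (L C) ≤ liminf (fun F : Finset G => ∑' i, Metric.ediam (U F i) ^ (σ : ℝ))
      atTop := by
    apply MeasureTheory.Measure.hausdorffMeasure_le_liminf_tsum (σ : ℝ) (L C) r hr U
    · refine Eventually.of_forall fun F i => ?_
      have h1 : f i ≤ tail F := ENNReal.le_tsum (f := fun b : {x // x ∉ F} => f b) i
      have h2 : Metric.ediam (U F i) ^ (σ : ℝ) ≤ tail F := (hdiam2 F i).trans h1
      have h3 := ENNReal.rpow_le_rpow h2 (z := 1 / (σ : ℝ)) (by positivity)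
      rw [← ENNReal.rpow_mul, mul_one_div_cancel hσ'.ne', ENNReal.rpow_one] at h3
      exact h3
    · exact Eventually.of_forall fun F => hcov F
  have key2 : liminf (fun F : Finset G => ∑' i, Metric.ediam (U F i) ^ (σ : ℝ)) atTop ≤ 0 := by
    have h1 : liminf (fun F : Finset G => ∑' i, Metric.ediam (U F i) ^ (σ : ℝ)) atTop ≤
        liminf tail atTop := by
      exact Filter.liminf_le_liminf
        (Eventually.of_forall fun F => ENNReal.tsum_le_tsum fun i => hdiam2 F i)
    rw [htail.liminf_eq] at h1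
    exact h1
  have : μH[(σ : ℝ)] (L C) ≤ 0 := key.trans key2
  exact ne_top_of_le_ne_top ENNReal.zero_ne_top this

end Pool.Agent.Helper97.Kap
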