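import Pool.Agent.Helper97.Kap.Series

set_option autoImplicit false
set_option linter.unusedSimpArgs false

namespace Pool.Agent.Helper97.Kap

open Complex Pointwise Cardinal

/-- free groups contain no `ℤ²` -/
lemma no_Z2 {F : Type*} [Group F] [IsFreeGroup F] (f : Multiplicative (ℤ × ℤ) →* F) :
    ¬ Function.Injective f := by
  intro hf
  have e : Multiplicative (ℤ × ℤ) ≃* f.range := MonoidHom.ofInjective hf
  have hcomm : ∀ a b : f.range, a * b = b * a := by
    intro a b
    have := mul_comm (e.symm a) (e.symm b)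
    rw [← map_mul, ← map_mul] at this
    exact e.symm.injective this
  have hfree : IsFreeGroup f.range := inferInstance
  let ι := IsFreeGroup.Generators f.range
  have e2 : FreeGroup ι ≃* f.range := IsFreeGroup.mulEquiv f.range
  have hcomm2 : ∀ a b : FreeGroup ι, a * b = b * a := by
    intro a b
    apply e2.injective
    rw [map_mul, map_mul, hcomm]
  have hsub : Subsingleton ι := by
    constructor
    intro a b
    by_contra hab
    classical
    let h : FreeGroup ι →* Equiv.Perm (Fin 3) :=
      FreeGroup.lift fun i => if i = a then Equiv.swap 0 1 else Equiv.swap 1 2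
    have h1 := congrArg h (hcomm2 (FreeGroup.of a) (FreeGroup.of b))
    rw [map_mul, map_mul] at h1
    simp only [h, FreeGroup.lift_apply_of, if_true] at h1
    rw [if_neg (fun h => hab h.symm)] at h1
    have h2 := congrArg (fun σ : Equiv.Perm (Fin 3) => σ 0) h1
    revert h2
    decide
  -- the free group on a subsingleton is cyclic
  have hcyc : IsCyclic (FreeGroup ι) := by
    rcases isEmpty_or_nonempty ι with h | ⟨⟨a⟩⟩
    · exact isCyclic_of_subsingleton
    · refine ⟨FreeGroup.of a, fun x => ?_⟩
      have key : x ∈ Subgroup.zpowers (FreeGroup.of a) := by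
        induction x using FreeGroup.induction_on with
        | C1 => exact Subgroup.one_mem _
        | of i =>
          rw [Subsingleton.elim i a]
          exact Subgroup.mem_zpowers _
        | inv_of i hi => exact Subgroup.inv_mem _ hi
        | mul x y hx hy => exact Subgroup.mul_mem _ hx hy
      exact key
  have e3 : FreeGroup ι ≃* Multiplicative (ℤ × ℤ) := e2.trans e.symm
  have hcyc2 : IsCyclic (Multiplicative (ℤ × ℤ)) := isCyclic_of_surjective e3 e3.surjective
  obtain ⟨g, hg⟩ := hcyc2.exists_zpow_surjective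
  obtain ⟨a, ha⟩ := hg (Multiplicative.ofAdd (1, 0))
  obtain ⟨b, hb⟩ := hg (Multiplicative.ofAdd (0, 1))
  have ha' : (a * (Multiplicative.toAdd g).1, a * (Multiplicative.toAdd g).2) = ((1 : ℤ), (0 : ℤ)) := by
    have := congrArg Multiplicative.toAdd ha
    simp only [toAdd_zpow, toAdd_ofAdd] at this
    rw [← this]
    rfl
  have hb' : (b * (Multiplicative.toAdd g).1, b * (Multiplicative.toAdd g).2) = ((0 : ℤ), (1 : ℤ)) := by
    have := congrArg Multiplicative.toAdd hb
    simp only [toAdd_zpow, toAdd_ofAdd] at this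
    rw [← this]
    rfl
  have a1 := congrArg Prod.fst ha'
  have a2 := congrArg Prod.snd ha'
  have b1 := congrArg Prod.fst hb'
  have b2 := congrArg Prod.snd hb'
  simp only at a1 a2 b1 b2
  have ha0 : a ≠ 0 := by
    rintro rfl
    simp at a1
  have hb0 : b ≠ 0 := by
    rintro rfl
    simp at b2
  rcases mul_eq_zero.mp a2 with h | h
  · exact ha0 h
  · rw [h, mul_zero] at b2
    exact zero_ne_one b2

/-- evaluation action -/
noncomputable instance {n : ℕ} : MulAction (Hyp n ≃ᵢ Hyp n) (Hyp n) where
  smul g x := g x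
  one_smul _ := rfl
  mul_smul _ _ _ := rfl

lemma smul_def' {n : ℕ} (g : Hyp n ≃ᵢ Hyp n) (x : Hyp n) : g • x = g x := rfl

namespace Par

variable (P : Par)

/-- the generators as a family -/
noncomputable def gens (i : Bool) : Hyp 4 ≃ᵢ Hyp 4 := if i then P.g₁ else P.g₂

/-- union of the two discs -/
def A : Set (Hyp 4) := {X | P.Good (some true) X ∨ P.Good (some false) X}

lemma not_good_of {ε : Bool} {h : Option Bool} {n : ℤ} (hall : ¬ (n = 0 ∧ h = some !ε)) {X : Hyp 4}
    (hX : P.Good h X) : ¬ P.Good (some !ε) ((P.g₁ ^ n) X) := by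
  intro h1
  have h2 := P.step_N ε h n hall X hX
  unfold Good at h1
  have hK25 : 25 ≤ max (P.M ^ 2) ((n : ℝ) ^ 2) := by
    have := le_max_left (P.M ^ 2) ((n : ℝ) ^ 2)
    have hM := P.hM
    nlinarith
  linarith

lemma gen_good {ε : Bool} {X : Hyp 4} (hX : ¬ P.Good (some !ε) X) : P.Good (some ε) (P.gen ε X) := by
  unfold Good at hX ⊢
  rw [φ_gen, N_sig]
  push Not at hX
  rw [div_le_iff₀ (by linarith)]
  linarith

lemma gen_pow_good (ε : Bool) (k : ℕ) {X : Hyp 4} (hX : ¬ P.Good (some !ε) X) :
    P.Good (some ε) ((P.gen ε ^ (k + 1)) X) := by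
  induction k with
  | zero => rw [zero_add, pow_one]; exact P.gen_good hX
  | succ k ih =>
    rw [pow_succ', IsometryEquiv.mul_apply]
    apply P.gen_good
    have := P.not_good_of (ε := ε) (h := some ε) (n := 0) (by
      rintro ⟨-, h⟩
      have := Option.some.inj h
      cases ε <;> simp at this) ih
    rwa [zpow_zero] at this

lemma zpow_g₂ (n : ℤ) (hn : n ≠ 0) {X : Hyp 4} (h1 : ¬ P.Good (some true) X)
    (h2 : ¬ P.Good (some false) X) : (P.g₂ ^ n) X ∈ P.A := by
  rcases lt_or_gt_of_ne hn with h | h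
  · obtain ⟨k, hk⟩ : ∃ k : ℕ, n = -((k : ℤ) + 1) := ⟨(-n - 1).toNat, by omega⟩
    right
    have h3 := P.gen_pow_good false k (X := X) h1
    have h4 : P.gen false ^ (k + 1) = P.g₂ ^ n := by
      change (P.g₂⁻¹) ^ (k + 1) = _
      rw [hk, zpow_neg, inv_pow]
      norm_cast
    rwa [h4] at h3
  · obtain ⟨k, hk⟩ : ∃ k : ℕ, n = (k : ℤ) + 1 := ⟨(n - 1).toNat, by omega⟩
    left
    have h3 := P.gen_pow_good true k (X := X) h2
    have h4 : P.gen true ^ (k + 1) = P.g₂ ^ n := by
      change (P.g₂) ^ (k + 1) = _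
      rw [hk]
      norm_cast
    rwa [h4] at h3

/-- a point of the disc -/
lemma A_nonempty : P.A.Nonempty := by
  refine ⟨P.gen true (origin 4), Or.inl (P.gen_good ?_)⟩
  intro h
  have h1 := P.not_good_of (ε := true) (h := none) (n := 0) (by simp) (P.good_origin)
  exact h1 h

lemma zpow_A_not (n : ℤ) (hn : n ≠ 0) {X : Hyp 4} (hX : X ∈ P.A) : (P.g₁ ^ n) X ∉ P.A := by
  intro h
  rcases hX with hX | hX
  · rcases h with h | h
    · exact P.not_good_of (ε := false) (n := n) (by simp [hn]) hX h
    · exact P.not_good_of (ε := true) (n := n) (by simp [hn]) hX h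
  · rcases h with h | h
    · exact P.not_good_of (ε := false) (n := n) (by simp [hn]) hX h
    · exact P.not_good_of (ε := true) (n := n) (by simp [hn]) hX h

theorem free : Function.Injective (FreeGroup.lift P.gens) := by
  have h0 : FreeGroup.lift P.gens =
      (Monoid.CoprodI.lift fun i => FreeGroup.lift fun _ => P.gens i).comp
        (@freeGroupEquivCoprodI Bool).toMonoidHom := by
    ext i
    simp
  rw [h0, MonoidHom.coe_comp]
  refine Function.Injective.comp ?_ (MulEquiv.injective freeGroupEquivCoprodI)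
  change Function.Injective (Monoid.CoprodI.lift fun i : Bool => FreeGroup.lift fun _ => P.gens i)
  let H : Bool → Type _ := fun _i => FreeGroup Unit
  let f : ∀ i, H i →* (Hyp 4 ≃ᵢ Hyp 4) := fun i => FreeGroup.lift fun _ => P.gens i
  let X' : Bool → Set (Hyp 4) := fun i => if i then {Y | ∃ n : ℤ, n ≠ 0 ∧ ∃ X ∈ P.A, Y = (P.g₁ ^ n) X}
    else P.A
  apply Monoid.CoprodI.lift_injective_of_ping_pong f _ X'
  · intro i
    cases i
    · exact P.A_nonempty
    · obtain ⟨X, hX⟩ := P.A_nonempty
      exact ⟨_, 1, one_ne_zero, X, hX, rfl⟩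
  · intro i j hij
    have key : Disjoint (X' true) (X' false) := by
      rw [Set.disjoint_left]
      rintro Y ⟨n, hn, X, hX, rfl⟩ h
      exact P.zpow_A_not n hn hX h
    cases i <;> cases j
    · exact absurd rfl hij
    · exact key.symm
    · exact key
    · exact absurd rfl hij
  · rintro i j hij
    refine FreeGroup.freeGroupUnitEquivInt.forall_congr_left.mpr ?_
    intro n hne1
    change FreeGroup.lift (fun _ => P.gens i) (FreeGroup.of () ^ n) • X' j ⊆ X' i
    simp only [map_zpow, FreeGroup.lift_apply_of]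
    have hnne0 : n ≠ 0 := by
      rintro rfl
      apply hne1
      simp [H, FreeGroup.freeGroupUnitEquivInt]
    rintro Y ⟨X, hX, rfl⟩
    change (P.gens i ^ n) X ∈ X' i
    cases i <;> cases j
    · exact absurd rfl hij
    · obtain ⟨k, hk, Z, hZ, rfl⟩ := hX
      change (P.g₂ ^ n) _ ∈ P.A
      have h1 := P.zpow_A_not k hk hZ
      exact P.zpow_g₂ n hnne0 (fun h => h1 (Or.inl h)) (fun h => h1 (Or.inr h))
    · exact ⟨n, hnne0, X, hX, rfl⟩
    · exact absurd rfl hij
  · right
    use true
    simp only [H]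
    rw [FreeGroup.freeGroupUnitEquivInt.cardinal_eq, Cardinal.mk_denumerable]
    exact natCast_le_aleph0

lemma range_gens : (FreeGroup.lift P.gens).range = P.G := by
  rw [FreeGroup.range_lift_eq_closure]
  unfold G
  congr 1
  ext g
  constructor
  · rintro ⟨i, rfl⟩
    cases i
    · right; rfl
    · left; rfl
  · rintro (rfl | h)
    · exact ⟨true, rfl⟩
    · exact ⟨false, (Set.mem_singleton_iff.mp h).symm⟩

/-- The group is free of rank two. -/
theorem equiv_free : Nonempty (FreeGroup Bool ≃* P.G) :=
  ⟨(MonoidHom.ofInjective P.free).trans (MulEquiv.subgroupCongr P.range_gens)⟩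

end Par

end Pool.Agent.Helper97.Kap
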