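import Pool.Agent.Helper97.Kap.Coord
import Pool.Agent.Helper97.Kap.Dim

set_option autoImplicit false
set_option linter.unusedSimpArgs false

namespace Pool.Agent.Helper97.Kap

open Complex ENNReal

/-- parameters of the construction -/
structure Par where
  ζ : ℂ
  hζ : normSq ζ = 1
  him : ζ.im ≠ 0
  m : ℕ
  hm : ζ ^ m = 1
  L : ℝ
  M : ℝ
  hM : 5 ≤ M
  hmM : M ≤ m
  hLM : M ≤ L
  hsep : ∀ n : ℤ, ¬ (m : ℤ) ∣ n → M ^ 2 ≤ normSq (ζ ^ n - 1) * L ^ 2
  hsum : 2 * ∑' n : ℤ, ENNReal.ofReal ((16 / max (M ^ 2) ((n : ℝ) ^ 2)) ^ (3 / 4 : ℝ)) ≤ 1 / 2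

namespace Par

variable (P : Par)

/-- the screw parabolic generator -/
noncomputable def g₁ : Hyp 4 ≃ᵢ Hyp 4 := isoOf (screwU P.ζ P.hζ) (screwU_C P.ζ P.hζ)

/-- the second generator -/
noncomputable def g₂ : Hyp 4 ≃ᵢ Hyp 4 :=
  isoOf (sigU (P.L : ℂ) ((2 * P.L : ℝ) : ℂ)) (sig_C (P.L : ℂ) ((2 * P.L : ℝ) : ℂ))

lemma φ_g₁ (X : Hyp 4) : φ (P.g₁ X) = screwU P.ζ P.hζ (φ X) := φ_isoOf _ _ X

lemma φ_g₁_inv (X : Hyp 4) : φ (P.g₁⁻¹ X) = (screwU P.ζ P.hζ).symm (φ X) := by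
  have h := P.φ_g₁ (P.g₁⁻¹ X)
  have h2 : P.g₁ (P.g₁⁻¹ X) = X := P.g₁.apply_symm_apply X
  rw [h2] at h
  rw [h, Equiv.symm_apply_apply]

lemma φ_g₂ (X : Hyp 4) : φ (P.g₂ X) = sig (P.L : ℂ) ((2 * P.L : ℝ) : ℂ) (φ X) := φ_isoOf _ _ X

lemma φ_g₂_inv (X : Hyp 4) : φ (P.g₂⁻¹ X) = sig ((2 * P.L : ℝ) : ℂ) (P.L : ℂ) (φ X) := by
  have h := P.φ_g₂ (P.g₂⁻¹ X)
  have h2 : P.g₂ (P.g₂⁻¹ X) = X := P.g₂.apply_symm_apply X
  rw [h2] at h
  rw [h, sig_sig]

/-- powers of the screw motion, in coordinates -/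
lemma zpow_coord (n : ℤ) (X : Hyp 4) : (φ ((P.g₁ ^ n) X)).z = P.ζ ^ n * (φ X).z ∧
    (φ ((P.g₁ ^ n) X)).y = (φ X).y + n ∧ (φ ((P.g₁ ^ n) X)).t = (φ X).t := by
  have h0 : P.ζ ≠ 0 := by
    intro h
    have := P.hζ
    rw [h] at this
    simp at this
  induction n using Int.induction_on generalizing X with
  | zero => simp
  | succ k ih =>
    rw [zpow_add_one, IsometryEquiv.mul_apply]
    obtain ⟨h1, h2, h3⟩ := ih (P.g₁ X)
    rw [h1, h2, h3, φ_g₁]
    refine ⟨?_, ?_, rfl⟩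
    · change P.ζ ^ (k : ℤ) * (P.ζ * (φ X).z) = _
      rw [← mul_assoc, zpow_add_one₀ h0]
    · change (φ X).y + 1 + _ = _
      push_cast
      ring
  | pred k ih =>
    rw [zpow_sub_one, IsometryEquiv.mul_apply]
    obtain ⟨h1, h2, h3⟩ := ih (P.g₁⁻¹ X)
    rw [h1, h2, h3, φ_g₁_inv]
    refine ⟨?_, ?_, rfl⟩
    · change P.ζ ^ (-(k : ℤ)) * (P.ζ⁻¹ * (φ X).z) = _
      rw [← mul_assoc, zpow_sub_one₀ h0]
    · change (φ X).y - 1 + _ = _
      push_cast
      ring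

/-- generator with a sign -/
noncomputable def gen (ε : Bool) : Hyp 4 ≃ᵢ Hyp 4 := if ε then P.g₂ else P.g₂⁻¹

/-- centres of the discs -/
noncomputable def cen : Option Bool → ℂ
  | none => 0
  | some true => ((2 * P.L : ℝ) : ℂ)
  | some false => (P.L : ℂ)

lemma φ_gen (ε : Bool) (X : Hyp 4) :
    φ (P.gen ε X) = sig (P.cen (some !ε)) (P.cen (some ε)) (φ X) := by
  cases ε
  · exact P.φ_g₂_inv X
  · exact P.φ_g₂ X

lemma gen_not (ε : Bool) : P.gen ε * P.gen (!ε) = 1 := by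
  cases ε
  · exact inv_mul_cancel P.g₂
  · exact mul_inv_cancel P.g₂

lemma L_pos : 0 < P.L := by
  have := P.hM
  have := P.hLM
  linarith

lemma normSq_zpow (n : ℤ) : normSq (P.ζ ^ n) = 1 := by
  rw [normSq_eq_norm_sq, norm_zpow]
  have h : ‖P.ζ‖ = 1 := by
    have := P.hζ
    rw [normSq_eq_norm_sq] at this
    exact (pow_eq_one_iff_of_nonneg (norm_nonneg _) two_ne_zero).mp this
  rw [h]
  simp

lemma norm_zpow' (n : ℤ) : ‖P.ζ ^ n‖ = 1 := by
  have := P.normSq_zpow n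
  rw [normSq_eq_norm_sq] at this
  exact (pow_eq_one_iff_of_nonneg (norm_nonneg _) two_ne_zero).mp this

/-- separation of the discs -/
lemma sep (ε : Bool) (h : Option Bool) (n : ℤ) (hall : ¬ (n = 0 ∧ h = some !ε)) :
    max (P.M ^ 2) ((n : ℝ) ^ 2) ≤ normSq (P.ζ ^ n * P.cen h - P.cen (some !ε)) + (n : ℝ) ^ 2 := by
  have hM := P.hM
  have hL := P.L_pos
  have hLM := P.hLM
  have hML2 : P.M ^ 2 ≤ P.L ^ 2 := pow_le_pow_left₀ (by linarith) hLM 2
  apply max_le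
  · by_cases hh : h = some !ε
    · subst hh
      by_cases hd : (P.m : ℤ) ∣ n
      · have hn : n ≠ 0 := fun h0 => hall ⟨h0, rfl⟩
        have h1 : (P.m : ℤ) ≤ |n| := Int.le_of_dvd (abs_pos.mpr hn) ((dvd_abs _ _).mpr hd)
        have h2 : (P.m : ℝ) ≤ |(n : ℝ)| := by exact_mod_cast h1
        have h3 : P.M ≤ |(n : ℝ)| := P.hmM.trans h2
        have h4 : P.M ^ 2 ≤ |(n : ℝ)| ^ 2 := pow_le_pow_left₀ (by linarith) h3 2
        rw [sq_abs] at h4
        have := normSq_nonneg (P.ζ ^ n * P.cen (some !ε) - P.cen (some !ε))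
        linarith
      · have h1 := P.hsep n hd
        have h2 : P.ζ ^ n * P.cen (some !ε) - P.cen (some !ε) =
            (P.ζ ^ n - 1) * P.cen (some !ε) := by ring
        rw [h2, normSq_mul]
        have h3 : P.L ^ 2 ≤ normSq (P.cen (some !ε)) := by
          cases ε
          · change P.L ^ 2 ≤ normSq ((2 * P.L : ℝ) : ℂ)
            rw [normSq_ofReal]
            nlinarith
          · change P.L ^ 2 ≤ normSq (P.L : ℂ)
            rw [normSq_ofReal]
            nlinarith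
        have h4 := mul_le_mul_of_nonneg_left h3 (normSq_nonneg (P.ζ ^ n - 1))
        nlinarith [sq_nonneg (n : ℝ)]
    · have h1 : P.L ≤ |‖P.ζ ^ n * P.cen h‖ - ‖P.cen (some !ε)‖| := by
        rw [norm_mul, P.norm_zpow', one_mul]
        have c0 : ‖P.cen none‖ = 0 := norm_zero
        have c1 : ‖P.cen (some true)‖ = 2 * P.L := by
          change ‖((2 * P.L : ℝ) : ℂ)‖ = _
          rw [norm_real, Real.norm_eq_abs, abs_of_pos (by linarith)]
        have c2 : ‖P.cen (some false)‖ = P.L := by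
          change ‖(P.L : ℂ)‖ = _
          rw [norm_real, Real.norm_eq_abs, abs_of_pos hL]
        cases ε
        · rcases h with _ | h
          · rw [c0]
            change P.L ≤ |0 - ‖P.cen (some true)‖|
            rw [c1, zero_sub, abs_neg, abs_of_pos (by linarith)]
            linarith
          · cases h
            · rw [c2]
              change P.L ≤ |P.L - ‖P.cen (some true)‖|
              rw [c1, abs_sub_comm, abs_of_pos (by linarith)]
              linarith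
            · exact absurd rfl hh
        · rcases h with _ | h
          · rw [c0]
            change P.L ≤ |0 - ‖P.cen (some false)‖|
            rw [c2, zero_sub, abs_neg, abs_of_pos (by linarith)]
          · cases h
            · exact absurd rfl hh
            · rw [c1]
              change P.L ≤ |2 * P.L - ‖P.cen (some false)‖|
              rw [c2, abs_of_pos (by linarith)]
              linarith
      have h2 := h1.trans (abs_norm_sub_norm_le _ _)
      have h3 : P.L ^ 2 ≤ ‖P.ζ ^ n * P.cen h - P.cen (some !ε)‖ ^ 2 := pow_le_pow_left₀ hL.le h2 2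
      rw [normSq_eq_norm_sq]
      nlinarith [sq_nonneg (n : ℝ)]
  · have := normSq_nonneg (P.ζ ^ n * P.cen h - P.cen (some !ε))
    linarith

lemma normSq_add_ge (a b : ℂ) : normSq b / 2 - normSq a ≤ normSq (a + b) := by
  rw [normSq_apply, normSq_apply, normSq_apply, add_re, add_im]
  nlinarith [sq_nonneg (2 * a.re + b.re), sq_nonneg (2 * a.im + b.im)]

/-- being in the disc -/
def Good (h : Option Bool) (X : Hyp 4) : Prop := U.N (P.cen h) (φ X) ≤ 4

lemma step_N (ε : Bool) (h : Option Bool) (n : ℤ) (hall : ¬ (n = 0 ∧ h = some !ε)) (X : Hyp 4)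
    (hX : P.Good h X) :
    max (P.M ^ 2) ((n : ℝ) ^ 2) / 4 ≤ U.N (P.cen (some !ε)) (φ ((P.g₁ ^ n) X)) := by
  obtain ⟨h1, h2, h3⟩ := P.zpow_coord n X
  have h4 := P.sep ε h n hall
  set K := max (P.M ^ 2) ((n : ℝ) ^ 2) with hK
  have hK25 : 25 ≤ K := by
    have := le_max_left (P.M ^ 2) ((n : ℝ) ^ 2)
    have hM := P.hM
    nlinarith
  unfold Good at hX
  have e1 : U.N (P.cen (some !ε)) (φ ((P.g₁ ^ n) X)) =
      normSq ((P.ζ ^ n * ((φ X).z - P.cen h)) + (P.ζ ^ n * P.cen h - P.cen (some !ε))) +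
      ((φ X).y + n) ^ 2 + (φ X).t ^ 2 := by
    unfold U.N
    rw [h1, h2, h3]
    congr 3
    ring
  rw [e1]
  have e2 := normSq_add_ge (P.ζ ^ n * ((φ X).z - P.cen h)) (P.ζ ^ n * P.cen h - P.cen (some !ε))
  rw [normSq_mul (P.ζ ^ n) ((φ X).z - P.cen h), P.normSq_zpow, one_mul] at e2
  unfold U.N at hX
  nlinarith [sq_nonneg (2 * (φ X).y + n), sq_nonneg ((φ X).t), sq_nonneg (φ X).y]

lemma step_good (ε : Bool) (h : Option Bool) (n : ℤ) (hall : ¬ (n = 0 ∧ h = some !ε)) (X : Hyp 4)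
    (hX : P.Good h X) : P.Good (some ε) (P.gen ε ((P.g₁ ^ n) X)) := by
  have h1 := P.step_N ε h n hall X hX
  unfold Good
  rw [φ_gen, N_sig]
  have hK25 : 25 ≤ max (P.M ^ 2) ((n : ℝ) ^ 2) := by
    have := le_max_left (P.M ^ 2) ((n : ℝ) ^ 2)
    have hM := P.hM
    nlinarith
  rw [div_le_iff₀ (by linarith)]
  linarith

lemma step_t (ε : Bool) (h : Option Bool) (n : ℤ) (hall : ¬ (n = 0 ∧ h = some !ε)) (X : Hyp 4)
    (hX : P.Good h X) : (φ (P.gen ε ((P.g₁ ^ n) X))).t ≤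
      16 / max (P.M ^ 2) ((n : ℝ) ^ 2) * (φ X).t := by
  have h1 := P.step_N ε h n hall X hX
  have hK25 : 25 ≤ max (P.M ^ 2) ((n : ℝ) ^ 2) := by
    have := le_max_left (P.M ^ 2) ((n : ℝ) ^ 2)
    have hM := P.hM
    nlinarith
  rw [φ_gen]
  change 4 * (φ ((P.g₁ ^ n) X)).t / U.N (P.cen (some !ε)) (φ ((P.g₁ ^ n) X)) ≤ _
  rw [(P.zpow_coord n X).2.2]
  have ht := (φ X).t_pos
  set K := max (P.M ^ 2) ((n : ℝ) ^ 2) with hK
  set Q := U.N (P.cen (some !ε)) (φ ((P.g₁ ^ n) X)) with hQ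
  have hQpos : 0 < Q := by linarith
  rw [div_mul_eq_mul_div, div_le_div_iff₀ hQpos (by linarith)]
  nlinarith

/-- words with `k` letters -/
def Wd : ℕ → Type
  | 0 => Unit
  | k + 1 => (Bool × ℤ) × Wd k

/-- first letter -/
def head : (k : ℕ) → Wd k → Option Bool
  | 0, _ => none
  | _ + 1, w => some w.1.1

/-- reduced words -/
def Red : (k : ℕ) → Wd k → Prop
  | 0, _ => True
  | k + 1, w => ¬ (w.1.2 = 0 ∧ head k w.2 = some !w.1.1) ∧ Red k w.2

/-- the value of a word -/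
noncomputable def val : (k : ℕ) → Wd k → (Hyp 4 ≃ᵢ Hyp 4)
  | 0, _ => 1
  | k + 1, w => P.gen w.1.1 * (P.g₁ ^ w.1.2 * val k w.2)

lemma φ_origin : (φ (origin 4)).z = 0 ∧ (φ (origin 4)).y = 0 ∧ (φ (origin 4)).t = 1 := by
  have h : φ (origin 4) = U.mk 0 0 1 one_pos := by
    rw [← Equiv.eq_symm_apply]
    symm
    change toHyp (U.mk 0 0 1 one_pos) = origin 4
    have c : ∀ i, vec (toHyp (U.mk 0 0 1 one_pos)) i = vec (origin 4) i := by
      intro i
      have h0 : vec (origin 4) i = 0 := rfl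
      rw [h0]
      fin_cases i
      · exact (toHyp_0 _).trans (by simp)
      · exact (toHyp_1 _).trans (by simp)
      · exact (toHyp_2 _).trans (by simp)
      · exact (toHyp_3 _).trans (by simp)
    have h2 : vec (toHyp (U.mk 0 0 1 one_pos)) = vec (origin 4) := by
      ext i; exact c i
    exact h2
  rw [h]
  exact ⟨rfl, rfl, rfl⟩

lemma good_origin : P.Good none (origin 4) := by
  unfold Good U.N
  obtain ⟨h1, h2, h3⟩ := φ_origin
  rw [h1, h2, h3]
  change normSq (0 - 0) + 0 ^ 2 + 1 ^ 2 ≤ (4 : ℝ)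
  norm_num

lemma good_val (k : ℕ) (w : Wd k) (hw : Red k w) : P.Good (head k w) (P.val k w (origin 4)) := by
  induction k with
  | zero => exact P.good_origin
  | succ k ih =>
    obtain ⟨⟨ε, n⟩, w'⟩ := w
    exact P.step_good ε (head k w') n hw.1 _ (ih w' hw.2)

/-- weight of a word -/
noncomputable def W (k : ℕ) (w : Wd k) : ℝ≥0∞ :=
  open scoped Classical in
  if Red k w then ENNReal.ofReal ((φ (P.val k w (origin 4))).t ^ (3 / 4 : ℝ)) else 0

lemma W_succ (k : ℕ) (a : Bool × ℤ) (w : Wd k) : P.W (k + 1) (a, w) ≤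
    ENNReal.ofReal ((16 / max (P.M ^ 2) ((a.2 : ℝ) ^ 2)) ^ (3 / 4 : ℝ)) * P.W k w := by
  classical
  obtain ⟨ε, n⟩ := a
  unfold W
  by_cases h : Red (k + 1) ((ε, n), w)
  · rw [if_pos h, if_pos h.2]
    have h1 := P.step_t ε (head k w) n h.1 _ (P.good_val k w h.2)
    have hK25 : 25 ≤ max (P.M ^ 2) ((n : ℝ) ^ 2) := by
      have := le_max_left (P.M ^ 2) ((n : ℝ) ^ 2)
      have hM := P.hM
      nlinarith
    rw [← ENNReal.ofReal_mul (by positivity), ← Real.mul_rpow (by positivity) (U.t_pos _).le]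
    apply ENNReal.ofReal_le_ofReal
    apply Real.rpow_le_rpow (U.t_pos _).le h1 (by norm_num)
  · rw [if_neg h]
    exact zero_le

/-- total weight of the words with `k` letters -/
lemma tsum_W (k : ℕ) : ∑' w : Wd k, P.W k w ≤ (1 / 2) ^ k := by
  induction k with
  | zero =>
    have h1 : ∑' w : Wd 0, P.W 0 w = P.W 0 () := by
      have h0 : ∀ f : Unit → ℝ≥0∞, ∑' w : Unit, f w = f () := fun f => by
        rw [tsum_fintype]
        simp
      exact h0 (P.W 0)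
    rw [h1]
    unfold W
    have h2 : Red 0 () := trivial
    rw [if_pos h2, pow_zero]
    change ENNReal.ofReal ((φ (origin 4)).t ^ (3 / 4 : ℝ)) ≤ 1
    rw [φ_origin.2.2, Real.one_rpow, ENNReal.ofReal_one]
  | succ k ih =>
    have h1 : ∑' w : Wd (k + 1), P.W (k + 1) w = ∑' a : Bool × ℤ, ∑' w : Wd k, P.W (k + 1) (a, w) :=
      ENNReal.tsum_prod (f := fun (a : Bool × ℤ) (w : Wd k) => P.W (k + 1) (a, w))
    rw [h1]
    calc ∑' a : Bool × ℤ, ∑' w : Wd k, P.W (k + 1) (a, w)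
        ≤ ∑' a : Bool × ℤ, ∑' w : Wd k,
          ENNReal.ofReal ((16 / max (P.M ^ 2) ((a.2 : ℝ) ^ 2)) ^ (3 / 4 : ℝ)) * P.W k w :=
          ENNReal.tsum_le_tsum fun a => ENNReal.tsum_le_tsum fun w => P.W_succ k a w
      _ = (∑' a : Bool × ℤ,
          ENNReal.ofReal ((16 / max (P.M ^ 2) ((a.2 : ℝ) ^ 2)) ^ (3 / 4 : ℝ))) *
          ∑' w : Wd k, P.W k w := by
          simp_rw [ENNReal.tsum_mul_left]
          rw [ENNReal.tsum_mul_right]
      _ = (2 * ∑' n : ℤ, ENNReal.ofReal ((16 / max (P.M ^ 2) ((n : ℝ) ^ 2)) ^ (3 / 4 : ℝ))) *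
          ∑' w : Wd k, P.W k w := by
          congr 1
          have h2 := ENNReal.tsum_prod (f := fun (_ : Bool) (n : ℤ) =>
            ENNReal.ofReal ((16 / max (P.M ^ 2) ((n : ℝ) ^ 2)) ^ (3 / 4 : ℝ)))
          rw [h2, tsum_fintype]
          simp [two_mul]
      _ ≤ (1 / 2) * (1 / 2) ^ k := mul_le_mul' P.hsum ih
      _ = (1 / 2) ^ (k + 1) := by rw [pow_succ, mul_comm]

end Par

end Pool.Agent.Helper97.Kap
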