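import Mathlib

set_option autoImplicit false
set_option linter.unusedSectionVars false


namespace Pool.Agent.Helper97.Kap.Model

open Real

variable {E : Type*} [NormedAddCommGroup E] [InnerProductSpace ℝ E]

/-- time coordinate -/
noncomputable def s (x : E) : ℝ := √(1 + ‖x‖ ^ 2)

/-- the form; cosh of the distance -/
noncomputable def B (x y : E) : ℝ := s x * s y - inner ℝ x y

lemma s_sq (x : E) : s x ^ 2 = 1 + ‖x‖ ^ 2 := Real.sq_sqrt (by positivity)

lemma one_le_s (x : E) : 1 ≤ s x := by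
  unfold s
  rw [Real.one_le_sqrt]
  have := sq_nonneg ‖x‖
  linarith

lemma s_pos (x : E) : 0 < s x := lt_of_lt_of_le one_pos (one_le_s x)

lemma s_zero : s (0 : E) = 1 := by simp [s]

lemma s_neg (x : E) : s (-x) = s x := by simp [s]

lemma B_symm (x y : E) : B x y = B y x := by
  unfold B; rw [real_inner_comm, mul_comm]

lemma B_self (x : E) : B x x = 1 := by
  unfold B
  rw [real_inner_self_eq_norm_sq, ← pow_two, s_sq]; ring

lemma B_zero (x : E) : B 0 x = s x := by
  unfold B
  rw [inner_zero_left, s_zero]; ring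

lemma inner_le_norm' (x y : E) : inner ℝ x y ≤ ‖x‖ * ‖y‖ := real_inner_le_norm x y

lemma one_le_B (x y : E) : 1 ≤ B x y := by
  unfold B
  have h1 := inner_le_norm' x y
  have h2 : 1 + ‖x‖ * ‖y‖ ≤ s x * s y := by
    apply le_of_sq_le_sq _ (by have := s_pos x; have := s_pos y; positivity)
    rw [mul_pow, s_sq, s_sq]
    nlinarith [sq_nonneg (‖x‖ - ‖y‖)]
  linarith

/-- boosts -/
noncomputable def T (z x : E) : E := x + (s x + inner ℝ z x / (1 + s z)) • z

lemma T_zero (z : E) : T z 0 = z := by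
  unfold T
  rw [inner_zero_right, s_zero]; simp

lemma inner_T (z x : E) : inner ℝ z (T z x) = s x * (s z ^ 2 - 1) + inner ℝ z x * s z := by
  have hz := s_pos z
  have h1 := s_sq z
  unfold T
  rw [inner_add_right, inner_smul_right, real_inner_self_eq_norm_sq]
  have h2 : ‖z‖ ^ 2 = s z ^ 2 - 1 := by linarith
  rw [h2]
  field_simp
  ring

lemma inner_T_T (z x y : E) : inner ℝ (T z x) (T z y) =
    (s x * s z + inner ℝ z x) * (s y * s z + inner ℝ z y) - s x * s y + inner ℝ x y := by
  have hz := s_pos z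
  have h1 := s_sq z
  have h2 : ‖z‖ ^ 2 = s z ^ 2 - 1 := by linarith
  unfold T
  rw [inner_add_left, inner_add_right, inner_add_right, inner_smul_left, inner_smul_right,
    inner_smul_left, inner_smul_right, real_inner_self_eq_norm_sq, h2, real_inner_comm z x]
  simp only [conj_trivial]
  field_simp
  ring

lemma s_T (z x : E) : s (T z x) = s x * s z + inner ℝ z x := by
  have h1 := inner_T_T z x x
  rw [real_inner_self_eq_norm_sq, real_inner_self_eq_norm_sq] at h1
  have h2 := s_sq x
  have h3 := s_sq (T z x)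
  have h4 : s (T z x) ^ 2 = (s x * s z + inner ℝ z x) ^ 2 := by
    rw [h3, h1]; linarith
  have h5 : 0 ≤ s x * s z + inner ℝ z x := by
    have := one_le_B (-z) x
    unfold B at this
    rw [s_neg, inner_neg_left] at this
    linarith
  exact (pow_left_inj₀ (s_pos _).le h5 two_ne_zero).mp h4

lemma B_T (z x y : E) : B (T z x) (T z y) = B x y := by
  unfold B
  rw [s_T, s_T, inner_T_T]
  ring

lemma T_neg_T (z x : E) : T (-z) (T z x) = x := by
  have hz := s_pos z
  have hT : ∀ a b : E, T a b = b + (s b + inner ℝ a b / (1 + s a)) • a := fun _ _ => rfl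
  rw [hT (-z), s_neg, inner_neg_left, s_T, inner_T, hT z x]
  have h2 : (1 + s z) ≠ 0 := by positivity
  rw [smul_neg, add_assoc, ← sub_eq_add_neg, ← sub_smul]
  have h3 : s x + inner ℝ z x / (1 + s z) - (s x * s z + inner ℝ z x +
      -(s x * (s z ^ 2 - 1) + inner ℝ z x * s z) / (1 + s z)) = 0 := by
    field_simp
    ring
  rw [h3, zero_smul, add_zero]

lemma T_T_neg (z x : E) : T z (T (-z) x) = x := by
  have := T_neg_T (-z) x
  rwa [neg_neg] at this

lemma T_neg_self (z : E) : T (-z) z = 0 := by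
  conv_lhs => rw [← T_zero z]
  rw [T_zero]
  have := T_neg_T z 0
  rwa [T_zero] at this

/-- distance -/
noncomputable def hd (x y : E) : ℝ := arcosh (B x y)

lemma cosh_hd (x y : E) : cosh (hd x y) = B x y := cosh_arcosh (one_le_B x y)

lemma hd_nonneg (x y : E) : 0 ≤ hd x y := arcosh_nonneg (one_le_B x y)

lemma hd_symm (x y : E) : hd x y = hd y x := by unfold hd; rw [B_symm]

lemma hd_self (x : E) : hd x x = 0 := by unfold hd; rw [B_self, arcosh_zero]

lemma hd_le_iff {x y : E} {r : ℝ} (hr : 0 ≤ r) : hd x y ≤ r ↔ B x y ≤ cosh r := by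
  rw [← cosh_hd, Real.cosh_le_cosh, abs_of_nonneg (hd_nonneg x y), abs_of_nonneg hr]

lemma hd_T (z x y : E) : hd (T z x) (T z y) = hd x y := by unfold hd; rw [B_T]

lemma cosh_hd_zero (x : E) : cosh (hd 0 x) = s x := by rw [cosh_hd, B_zero]

lemma sinh_hd_zero (x : E) : sinh (hd 0 x) = ‖x‖ := by
  have h1 := Real.cosh_sq (hd 0 x)
  rw [cosh_hd_zero, s_sq] at h1
  have h2 : sinh (hd 0 x) ^ 2 = ‖x‖ ^ 2 := by linarith
  exact (pow_left_inj₀ (Real.sinh_nonneg_iff.mpr (hd_nonneg _ _)) (norm_nonneg _) two_ne_zero).mp h2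

lemma hd_triangle (x y z : E) : hd x z ≤ hd x y + hd y z := by
  rw [hd_le_iff (add_nonneg (hd_nonneg _ _) (hd_nonneg _ _))]
  rw [← hd_T (-y) x y, ← hd_T (-y) y z, ← B_T (-y) x z, T_neg_self, hd_symm _ 0]
  rw [Real.cosh_add, cosh_hd_zero, cosh_hd_zero, sinh_hd_zero, sinh_hd_zero]
  unfold B
  have h1 := inner_le_norm' (-(T (-y) x)) (T (-y) z)
  rw [inner_neg_left, norm_neg] at h1
  linarith

lemma hd_geo (x y : E) {t : ℝ} (ht0 : 0 ≤ t) (ht : t ≤ hd x y) :
    ∃ m, hd x m = t ∧ hd m y = hd x y - t := by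
  set y' := T (-x) y with hy'
  have h1 : hd x y = hd 0 y' := by rw [← hd_T (-x), T_neg_self]
  have key : ∃ m' : E, hd 0 m' = t ∧ hd m' y' = hd x y - t := by
    by_cases h0 : y' = 0
    · refine ⟨0, ?_, ?_⟩
      · rw [h0, hd_self] at h1
        rw [hd_self]; linarith
      · rw [h0, hd_self]
        rw [h0, hd_self] at h1
        linarith
    · have hn : 0 < ‖y'‖ := norm_pos_iff.mpr h0
      have hsh : 0 ≤ sinh t := Real.sinh_nonneg_iff.mpr ht0
      have hs : s ((sinh t / ‖y'‖) • y') = cosh t := by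
        have h2 : s ((sinh t / ‖y'‖) • y') ^ 2 = cosh t ^ 2 := by
          rw [s_sq, norm_smul, Real.norm_eq_abs, abs_of_nonneg (by positivity),
            div_mul_cancel₀ _ hn.ne', Real.cosh_sq]
          ring
        exact (pow_left_inj₀ (s_pos _).le (Real.cosh_pos _).le two_ne_zero).mp h2
      refine ⟨(sinh t / ‖y'‖) • y', ?_, ?_⟩
      · unfold hd
        rw [B_zero, hs, arcosh_cosh ht0]
      · have h3 : B ((sinh t / ‖y'‖) • y') y' = cosh (hd x y - t) := by
          rw [Real.cosh_sub, h1, cosh_hd_zero, sinh_hd_zero]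
          unfold B
          rw [hs, inner_smul_left, real_inner_self_eq_norm_sq]
          simp only [conj_trivial]
          field_simp
        unfold hd
        rw [h3, arcosh_cosh (by linarith)]
        rfl
  obtain ⟨m', hm1, hm2⟩ := key
  refine ⟨T x m', ?_, ?_⟩
  · rw [← hd_T (-x), T_neg_self, T_neg_T]; exact hm1
  · rw [← hd_T (-x), T_neg_T]; exact hm2
lemma eq_of_hd_eq_zero {x y : E} (h : hd x y = 0) : x = y := by
  rw [← hd_T (-x), T_neg_self] at h
  have h1 := sinh_hd_zero (T (-x) y)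
  rw [h, Real.sinh_zero] at h1
  have h2 : T (-x) y = 0 := norm_eq_zero.mp h1.symm
  have h3 := T_T_neg x y
  rw [h2, T_zero] at h3
  exact h3

lemma continuous_s : Continuous (s : E → ℝ) := by
  unfold s
  fun_prop

lemma continuous_B : Continuous (fun p : E × E => B p.1 p.2) := by
  unfold B
  exact ((continuous_s.comp continuous_fst).mul (continuous_s.comp continuous_snd)).sub
    (continuous_fst.inner continuous_snd)

lemma continuous_hd : Continuous (fun p : E × E => hd p.1 p.2) := by
  unfold hd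
  exact Real.continuousOn_arcosh.comp_continuous continuous_B (fun p => one_le_B _ _)

lemma continuous_T (z : E) : Continuous (T z) := by
  unfold T
  have := continuous_s (E := E)
  fun_prop

lemma s_smul_sinh {ξ : E} (hξ : ‖ξ‖ = 1) (t : ℝ) : s (sinh t • ξ) = cosh t := by
  have h2 : s (sinh t • ξ) ^ 2 = cosh t ^ 2 := by
    rw [s_sq, norm_smul, hξ, mul_one, Real.norm_eq_abs, sq_abs, Real.cosh_sq]
    ring
  exact (pow_left_inj₀ (s_pos _).le (Real.cosh_pos _).le two_ne_zero).mp h2

lemma hd_ray {ξ : E} (hξ : ‖ξ‖ = 1) (t t' : ℝ) : hd (sinh t • ξ) (sinh t' • ξ) = |t - t'| := by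
  unfold hd
  have : B (sinh t • ξ) (sinh t' • ξ) = cosh |t - t'| := by
    unfold B
    rw [s_smul_sinh hξ, s_smul_sinh hξ, inner_smul_left, inner_smul_right,
      real_inner_self_eq_norm_sq, hξ, Real.cosh_abs, Real.cosh_sub]
    simp only [conj_trivial]
    ring
  rw [this, arcosh_cosh (abs_nonneg _)]

end Pool.Agent.Helper97.Kap.Model
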