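import Pool.Agent.Helper97.Kap.Group

set_option autoImplicit false
set_option linter.unusedSimpArgs false

namespace Pool.Agent.Helper97.Kap

open Complex

/-- squared Euclidean distance of a point of the upper half-space to a boundary point -/
noncomputable def NN (c₁ : ℂ) (c₂ : ℝ) (p : U) : ℝ :=
  normSq (p.z - c₁) + (p.y - c₂) ^ 2 + p.t ^ 2

lemma F_coord (u v X : Hyp 4) : F u v X * (2 * (φ X).t * (φ u).t * (φ v).t) =
    (φ u).t * (normSq ((φ X).z - (φ v).z) + ((φ X).y - (φ v).y) ^ 2 + ((φ X).t - (φ v).t) ^ 2) -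
    (φ v).t * (normSq ((φ X).z - (φ u).z) + ((φ X).y - (φ u).y) ^ 2 + ((φ X).t - (φ u).t) ^ 2) := by
  have h1 := (φ X).t_pos
  have h2 := (φ u).t_pos
  have h3 := (φ v).t_pos
  unfold F
  rw [cosh_dist_φ, cosh_dist_φ]
  unfold U.C
  field_simp
  ring

/-- the two types of hyperplanes -/
lemma types {u v : Hyp 4} (huv : u ≠ v) :
    (∃ (ω : ℂ) (w β : ℝ), (ω ≠ 0 ∨ w ≠ 0) ∧
      ∀ X, F u v X = 0 ↔ ((φ X).z * (starRingEnd ℂ) ω).re + (φ X).y * w = β) ∨
    (∃ (δ : ℝ) (c₁ : ℂ) (c₂ r : ℝ), δ ≠ 0 ∧ 0 < r ∧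
      ∀ X, ∃ κ : ℝ, 0 < κ ∧ F u v X * κ = δ * (NN c₁ c₂ (φ X) - r ^ 2)) := by
  have h2 := (φ u).t_pos
  have h3 := (φ v).t_pos
  have hne : φ u ≠ φ v := fun h => huv (φ.injective h)
  set a := φ u with ha
  set b := φ v with hb
  by_cases ht : a.t = b.t
  · left
    refine ⟨b.z - a.z, b.y - a.y, (normSq b.z + b.y ^ 2 - normSq a.z - a.y ^ 2) / 2, ?_, ?_⟩
    · by_contra hcon
      push Not at hcon
      obtain ⟨e1, e2⟩ := hcon
      exact hne (U.ext' (sub_eq_zero.mp e1).symm (sub_eq_zero.mp e2).symm ht)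
    · intro X
      have h1 := (φ X).t_pos
      have h4 := F_coord u v X
      rw [← ha, ← hb, ← ht] at h4
      have h5 : F u v X * (2 * (φ X).t * a.t * a.t) = a.t * (-2 * ((((φ X).z *
          (starRingEnd ℂ) (b.z - a.z)).re + (φ X).y * (b.y - a.y)) -
          (normSq b.z + b.y ^ 2 - normSq a.z - a.y ^ 2) / 2)) := by
        rw [h4]
        simp only [normSq_apply, sub_re, sub_im, mul_re, conj_re, conj_im]
        ring
      constructor
      · intro hF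
        rw [hF, zero_mul] at h5
        have h6 := h5.symm
        rcases mul_eq_zero.mp h6 with h | h
        · exact absurd h h2.ne'
        · linarith
      · intro hF
        rw [hF, sub_self, mul_zero, mul_zero] at h5
        rcases mul_eq_zero.mp h5 with h | h
        · exact h
        · exact absurd h (by positivity)
  · right
    have hδ : a.t - b.t ≠ 0 := sub_ne_zero.mpr ht
    set δ := a.t - b.t with hδdef
    set D := normSq (a.z - b.z) + (a.y - b.y) ^ 2 + (a.t - b.t) ^ 2 with hD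
    have hDpos : 0 < D := by
      have e1 := normSq_nonneg (a.z - b.z)
      have e2 : 0 < (a.t - b.t) ^ 2 := by positivity
      positivity
    refine ⟨δ, ((1 / δ : ℝ) : ℂ) * ((a.t : ℂ) * b.z - (b.t : ℂ) * a.z),
      (a.t * b.y - b.t * a.y) / δ, √(a.t * b.t * D / δ ^ 2), hδ, by positivity, fun X => ?_⟩
    have h1 := (φ X).t_pos
    refine ⟨2 * (φ X).t * a.t * b.t, by positivity, ?_⟩
    rw [F_coord, ← ha, ← hb, Real.sq_sqrt (by positivity)]
    unfold NN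
    simp only [normSq_apply, sub_re, sub_im, re_ofReal_mul, im_ofReal_mul] at hD ⊢
    rw [hD]
    field_simp
    rw [hδdef]
    ring

lemma φ_symm_mk (z : ℂ) (y t : ℝ) (ht : 0 < t) : φ (φ.symm (U.mk z y t ht)) = U.mk z y t ht :=
  φ.apply_symm_apply _

namespace Par

variable (P : Par)

lemma g₁_mem_closure : P.g₁ ∈ Subgroup.closure {P.g₁, P.g₂} := Subgroup.subset_closure (by simp)

lemma g₂_mem_closure : P.g₂ ∈ Subgroup.closure {P.g₁, P.g₂} := Subgroup.subset_closure (by simp)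

lemma m_pos : (0 : ℝ) < P.m := by
  have := P.hM
  have := P.hmM
  linarith

/-- radius bound for hemispherical faces -/
lemma radius_bound {J : Type*} [Finite J] {u v : J → Hyp 4}
    (hT : Tiling (Subgroup.closure {P.g₁, P.g₂}) u v) {g : Hyp 4 ≃ᵢ Hyp 4}
    (hg : g ∈ Subgroup.closure {P.g₁, P.g₂}) (j : J) {δ : ℝ} {c₁ : ℂ} {c₂ r : ℝ} (hδ : δ ≠ 0)
    (hr : 0 < r) (hF : ∀ X, ∃ κ : ℝ, 0 < κ ∧
      F (g⁻¹ (u j)) (g⁻¹ (v j)) X * κ = δ * (NN c₁ c₂ (φ X) - r ^ 2)) : 2 * r ≤ P.m := by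
  by_contra hcon
  push Not at hcon
  have hm := P.m_pos
  have hzero : ∀ X, F (u j) (v j) (g X) = 0 ↔ NN c₁ c₂ (φ X) = r ^ 2 := by
    intro X
    rw [F_map']
    obtain ⟨κ, hκ, h1⟩ := hF X
    constructor
    · intro h
      rw [h, zero_mul] at h1
      rcases mul_eq_zero.mp h1.symm with h | h
      · exact absurd h hδ
      · linarith
    · intro h
      rw [h, sub_self, mul_zero] at h1
      rcases mul_eq_zero.mp h1 with h | h
      · exact h
      · exact absurd h hκ.ne'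
  have hτ : ∀ X, (φ ((P.g₁ ^ (P.m : ℤ)) X)).z = (φ X).z ∧
      (φ ((P.g₁ ^ (P.m : ℤ)) X)).y = (φ X).y + P.m ∧ (φ ((P.g₁ ^ (P.m : ℤ)) X)).t = (φ X).t := by
    intro X
    obtain ⟨h1, h2, h3⟩ := P.zpow_coord P.m X
    refine ⟨?_, ?_, h3⟩
    · rw [h1, zpow_natCast, P.hm, one_mul]
    · rw [h2]; simp
  have hpos : 0 < r ^ 2 - (P.m : ℝ) ^ 2 / 4 := by nlinarith
  set t₁ := √(r ^ 2 - (P.m : ℝ) ^ 2 / 4) with ht₁
  have ht₁0 : 0 < t₁ := Real.sqrt_pos.mpr hpos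
  have ht₁2 : t₁ ^ 2 = r ^ 2 - (P.m : ℝ) ^ 2 / 4 := Real.sq_sqrt hpos.le
  set X₁ := φ.symm (U.mk c₁ (c₂ - P.m / 2) t₁ ht₁0) with hX₁
  have hφ₁ : φ X₁ = U.mk c₁ (c₂ - P.m / 2) t₁ ht₁0 := φ_symm_mk _ _ _ _
  have hh : g * P.g₁ ^ (P.m : ℤ) ∈ Subgroup.closure {P.g₁, P.g₂} :=
    Subgroup.mul_mem _ hg (Subgroup.zpow_mem _ P.g₁_mem_closure _)
  have e1 : F (u j) (v j) (g X₁) = 0 := by
    rw [hzero, hφ₁]
    unfold NN
    simp only [U.mk_z, U.mk_y, U.mk_t]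
    rw [sub_self, normSq_zero, ht₁2]
    ring
  have e2 : F (u j) (v j) ((g * P.g₁ ^ (P.m : ℤ)) X₁) = 0 := by
    rw [IsometryEquiv.mul_apply, hzero]
    obtain ⟨a1, a2, a3⟩ := hτ X₁
    unfold NN
    rw [a1, a2, a3, hφ₁]
    simp only [U.mk_z, U.mk_y, U.mk_t]
    rw [sub_self, normSq_zero, ht₁2]
    ring
  have key := hT.faces hg hh e1 e2
  set X₂ := φ.symm (U.mk c₁ c₂ r hr) with hX₂
  have hφ₂ : φ X₂ = U.mk c₁ c₂ r hr := φ_symm_mk _ _ _ _
  have e3 : F (u j) (v j) (g X₂) = 0 := by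
    rw [hzero, hφ₂]
    unfold NN
    simp only [U.mk_z, U.mk_y, U.mk_t]
    rw [sub_self, normSq_zero]
    ring
  have e4 := (key X₂).mp e3
  rw [IsometryEquiv.mul_apply, hzero] at e4
  obtain ⟨a1, a2, a3⟩ := hτ X₂
  unfold NN at e4
  rw [a1, a2, a3, hφ₂] at e4
  simp only [U.mk_z, U.mk_y, U.mk_t] at e4
  rw [sub_self, normSq_zero] at e4
  nlinarith

/-- The group admits no tiling by a region bounded by half-spaces. -/
theorem no_tiling {J : Type*} [Finite J] {u v : J → Hyp 4}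
    (hT : Tiling (Subgroup.closure {P.g₁, P.g₂}) u v) : False := by
  have hm := P.m_pos
  -- step 2: there is a vertical face
  have step2 : ∃ (j : J) (g : Hyp 4 ≃ᵢ Hyp 4), g ∈ Subgroup.closure {P.g₁, P.g₂} ∧
      ∃ (ω : ℂ) (w β : ℝ), (ω ≠ 0 ∨ w ≠ 0) ∧
      ∀ X, F (g⁻¹ (u j)) (g⁻¹ (v j)) X = 0 ↔
        ((φ X).z * (starRingEnd ℂ) ω).re + (φ X).y * w = β := by
    by_contra hcon
    have htype : ∀ (j : J) (g : Hyp 4 ≃ᵢ Hyp 4), g ∈ Subgroup.closure {P.g₁, P.g₂} →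
        (∃ (δ : ℝ) (c₁ : ℂ) (c₂ r : ℝ), δ ≠ 0 ∧ 0 < r ∧
        ∀ X, ∃ κ : ℝ, 0 < κ ∧
          F (g⁻¹ (u j)) (g⁻¹ (v j)) X * κ = δ * (NN c₁ c₂ (φ X) - r ^ 2)) := by
      intro j g hg
      have hne : g⁻¹ (u j) ≠ g⁻¹ (v j) := fun h => hT.ne j (g⁻¹.injective h)
      rcases types hne with h | h
      · exact absurd ⟨j, g, hg, h⟩ hcon
      · exact h
    set T : ℝ := (P.m : ℝ) with hTdef
    set XT := φ.symm (U.mk 0 0 T hm) with hXT
    have hφT : φ XT = U.mk 0 0 T hm := φ_symm_mk _ _ _ _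
    obtain ⟨g, hg, hcov⟩ := hT.cov XT
    have hneg : ∀ j X, (φ X).t = T → F (u j) (v j) (g X) < 0 := by
      intro j X hX
      obtain ⟨δ, c₁, c₂, r, hδ, hr, hF⟩ := htype j g hg
      have hrad := P.radius_bound hT hg j hδ hr hF
      have hN : ∀ Y, (φ Y).t = T → 0 < NN c₁ c₂ (φ Y) - r ^ 2 := by
        intro Y hY
        unfold NN
        rw [hY]
        have := normSq_nonneg ((φ Y).z - c₁)
        nlinarith [sq_nonneg ((φ Y).y - c₂)]
      have hδneg : δ < 0 := by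
        obtain ⟨κ, hκ, h1⟩ := hF XT
        have h2 := hcov j
        rw [F_map'] at h2
        have h3 := hN XT (by rw [hφT]; rfl)
        rcases lt_or_gt_of_ne hδ with h | h
        · exact h
        · exfalso
          nlinarith [mul_pos h h3, mul_nonneg (neg_nonneg.mpr h2) hκ.le]
      rw [F_map']
      obtain ⟨κ, hκ, h1⟩ := hF X
      have h3 := hN X hX
      by_contra h4
      push Not at h4
      nlinarith [mul_pos (neg_pos.mpr hδneg) h3, mul_nonneg h4 hκ.le]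
    have h1 := hT.tile (g * P.g₁ * g⁻¹) (Subgroup.mul_mem _ (Subgroup.mul_mem _ hg
      P.g₁_mem_closure) (Subgroup.inv_mem _ hg)) (g XT)
      (fun j => hneg j XT (by rw [hφT]; rfl)) (fun j => by
        rw [IsometryEquiv.mul_apply, IsometryEquiv.mul_apply]
        have : g⁻¹ (g XT) = XT := g.symm_apply_apply XT
        rw [this]
        apply hneg
        rw [φ_g₁, hφT]
        rfl)
    have h2 : P.g₁ = 1 := by
      have h3 : g * P.g₁ = g := by
        calc g * P.g₁ = (g * P.g₁ * g⁻¹) * g := by group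
          _ = g := by rw [h1, one_mul]
      exact mul_eq_left.mp h3
    have h3 := congrArg U.y (P.φ_g₁ (origin 4))
    rw [h2] at h3
    change (φ (origin 4)).y = (φ (origin 4)).y + 1 at h3
    linarith
  obtain ⟨j, g, hg, ω, w, β, hne, hF⟩ := step2
  have hF' : ∀ X, F (u j) (v j) (g X) = 0 ↔
      ((φ X).z * (starRingEnd ℂ) ω).re + (φ X).y * w = β := fun X => by rw [F_map']; exact hF X
  -- step 3: the face is orthogonal to the axis
  have hω : ω = 0 := by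
    by_contra hω
    have hcω : (starRingEnd ℂ) ω ≠ 0 := by simpa using hω
    have hb := P.him
    set a := P.ζ.re
    set b := P.ζ.im
    set s : ℂ := ⟨β, (a * β - (β - w)) / b⟩ with hs
    have hone : (0 : ℝ) < 1 := one_pos
    set X₁ := φ.symm (U.mk (s / (starRingEnd ℂ) ω) 0 1 hone) with hX₁
    have hφ₁ : φ X₁ = U.mk (s / (starRingEnd ℂ) ω) 0 1 hone := φ_symm_mk _ _ _ _
    have hh : g * P.g₁ ∈ Subgroup.closure {P.g₁, P.g₂} :=
      Subgroup.mul_mem _ hg P.g₁_mem_closure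
    have hF2 : ∀ X, F (u j) (v j) ((g * P.g₁) X) = 0 ↔
        (P.ζ * (φ X).z * (starRingEnd ℂ) ω).re + ((φ X).y + 1) * w = β := by
      intro X
      rw [IsometryEquiv.mul_apply, hF', φ_g₁]
      rfl
    have e1 : F (u j) (v j) (g X₁) = 0 := by
      rw [hF', hφ₁]
      simp only [U.mk_z, U.mk_y]
      rw [div_mul_cancel₀ _ hcω, hs]
      simp
    have e2 : F (u j) (v j) ((g * P.g₁) X₁) = 0 := by
      rw [hF2, hφ₁]
      simp only [U.mk_z, U.mk_y]
      rw [mul_assoc, div_mul_cancel₀ _ hcω, mul_re, hs]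
      change a * β - b * ((a * β - (β - w)) / b) + (0 + 1) * w = β
      field_simp
      ring
    have key := hT.faces hg hh e1 e2
    set X₂ := φ.symm (U.mk ((s + I) / (starRingEnd ℂ) ω) 0 1 hone) with hX₂
    have hφ₂ : φ X₂ = U.mk ((s + I) / (starRingEnd ℂ) ω) 0 1 hone := φ_symm_mk _ _ _ _
    have e3 : F (u j) (v j) (g X₂) = 0 := by
      rw [hF', hφ₂]
      simp only [U.mk_z, U.mk_y]
      rw [div_mul_cancel₀ _ hcω, hs]
      simp
    have e4 := (key X₂).mp e3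
    rw [hF2, hφ₂] at e4
    simp only [U.mk_z, U.mk_y] at e4
    rw [mul_assoc, div_mul_cancel₀ _ hcω, mul_re, hs] at e4
    have e5 : a * (β + 0) - b * ((a * β - (β - w)) / b + 1) + (0 + 1) * w = β := by
      have h1 : ((⟨β, (a * β - (β - w)) / b⟩ : ℂ) + I).re = β + 0 := by simp
      have h2 : ((⟨β, (a * β - (β - w)) / b⟩ : ℂ) + I).im = (a * β - (β - w)) / b + 1 := by simp
      rw [h1, h2] at e4
      exact e4
    have e6 : b * ((a * β - (β - w)) / b + 1) = a * β - (β - w) + b := by field_simp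
    rw [e6] at e5
    apply hb
    linarith
  subst hω
  have hw : w ≠ 0 := by
    rcases hne with h | h
    · exact absurd rfl h
    · exact h
  -- step 4
  set τ₀ := β / w with hτ₀
  have hF3 : ∀ X, F (u j) (v j) (g X) = 0 ↔ (φ X).y = τ₀ := by
    intro X
    rw [hF', map_zero, mul_zero, zero_re, zero_add, hτ₀, eq_div_iff hw]
  set n : ℤ := ⌈τ₀⌉ - 1 with hn
  set τ := τ₀ - n with hτ
  have hτ0 : 0 < τ := by
    have := Int.ceil_lt_add_one τ₀
    rw [hτ, hn]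
    push_cast
    linarith
  have hτ1 : τ ≤ 1 := by
    have := Int.le_ceil τ₀
    rw [hτ, hn]
    push_cast
    linarith
  have memA : g * P.g₁ ^ n * P.g₂⁻¹ ∈ Subgroup.closure {P.g₁, P.g₂} :=
    Subgroup.mul_mem _ (Subgroup.mul_mem _ hg (Subgroup.zpow_mem _ P.g₁_mem_closure _))
      (Subgroup.inv_mem _ P.g₂_mem_closure)
  have memB : g * P.g₁ ^ (n + 2) ∈ Subgroup.closure {P.g₁, P.g₂} :=
    Subgroup.mul_mem _ hg (Subgroup.zpow_mem _ P.g₁_mem_closure _)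
  have hA : ∀ X, F (u j) (v j) ((g * P.g₁ ^ n * P.g₂⁻¹) X) = 0 ↔
      -(4 * (φ X).y / U.N ((2 * P.L : ℝ) : ℂ) (φ X)) = τ := by
    intro X
    rw [IsometryEquiv.mul_apply, IsometryEquiv.mul_apply, hF3, (P.zpow_coord n _).2.1, φ_g₂_inv, hτ]
    change -(4 * (φ X).y / U.N ((2 * P.L : ℝ) : ℂ) (φ X)) + n = τ₀ ↔ _
    constructor <;> intro h <;> linarith
  have hB : ∀ X, F (u j) (v j) ((g * P.g₁ ^ (n + 2)) X) = 0 ↔ (φ X).y = τ - 2 := by
    intro X
    rw [IsometryEquiv.mul_apply, hF3, (P.zpow_coord (n + 2) _).2.1, hτ]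
    push_cast
    constructor <;> intro h <;> linarith
  have hpos : 0 < (2 - τ) * (4 / τ + τ - 2) := by
    have h1 : 4 ≤ 4 / τ := by
      rw [le_div_iff₀ hτ0]
      linarith
    apply mul_pos <;> linarith
  set t₁ := √((2 - τ) * (4 / τ + τ - 2)) with ht₁
  have ht₁0 : 0 < t₁ := Real.sqrt_pos.mpr hpos
  have ht₁2 : t₁ ^ 2 = (2 - τ) * (4 / τ + τ - 2) := Real.sq_sqrt hpos.le
  set X₁ := φ.symm (U.mk ((2 * P.L : ℝ) : ℂ) (τ - 2) t₁ ht₁0) with hX₁
  have hφ₁ : φ X₁ = U.mk ((2 * P.L : ℝ) : ℂ) (τ - 2) t₁ ht₁0 := φ_symm_mk _ _ _ _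
  have e1 : F (u j) (v j) ((g * P.g₁ ^ n * P.g₂⁻¹) X₁) = 0 := by
    rw [hA, hφ₁]
    unfold U.N
    simp only [U.mk_z, U.mk_y, U.mk_t]
    rw [sub_self, normSq_zero, ht₁2, zero_add]
    have h1 : (τ - 2) ^ 2 + (2 - τ) * (4 / τ + τ - 2) = 4 * (2 - τ) / τ := by
      field_simp
      ring
    rw [h1]
    have h2 : 2 - τ ≠ 0 := by linarith
    field_simp
    ring
  have e2 : F (u j) (v j) ((g * P.g₁ ^ (n + 2)) X₁) = 0 := by
    rw [hB, hφ₁]
    rfl
  have key := hT.faces memA memB e1 e2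
  have ht₂0 : 0 < t₁ + 1 := by linarith
  set X₂ := φ.symm (U.mk ((2 * P.L : ℝ) : ℂ) (τ - 2) (t₁ + 1) ht₂0) with hX₂
  have hφ₂ : φ X₂ = U.mk ((2 * P.L : ℝ) : ℂ) (τ - 2) (t₁ + 1) ht₂0 := φ_symm_mk _ _ _ _
  have e3 : F (u j) (v j) ((g * P.g₁ ^ (n + 2)) X₂) = 0 := by
    rw [hB, hφ₂]
    rfl
  have e4 := (key X₂).mpr e3
  rw [hA, hφ₂] at e4
  unfold U.N at e4
  simp only [U.mk_z, U.mk_y, U.mk_t] at e4
  rw [sub_self, normSq_zero, zero_add] at e4
  have h5 : 0 < (τ - 2) ^ 2 + (t₁ + 1) ^ 2 := by positivity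
  have h6 : -(4 * (τ - 2)) = τ * ((τ - 2) ^ 2 + (t₁ + 1) ^ 2) := by
    rw [← neg_div, div_eq_iff h5.ne'] at e4
    exact e4
  have h7 : -(4 * (τ - 2)) = τ * ((τ - 2) ^ 2 + t₁ ^ 2) := by
    rw [ht₁2]
    field_simp
    ring
  nlinarith

end Par

end Pool.Agent.Helper97.Kap
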