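import Pool.Agent.Helper97.Kap.Group

set_option autoImplicit false

namespace Pool.Agent.Helper97.Kap

open Complex ENNReal

lemma summable_b : Summable fun n : ℤ => ((max 1 |(n : ℝ)|) ^ (5 / 4 : ℝ))⁻¹ := by
  have h1 : Summable fun n : ℤ => |(n : ℝ)| ^ (-(5 / 4) : ℝ) + if n = 0 then (1 : ℝ) else 0 := by
    apply Summable.add
    · exact Real.summable_abs_int_rpow (by norm_num)
    · exact (hasSum_ite_eq (0 : ℤ) _).summable
  refine Summable.of_nonneg_of_le (fun n => by positivity) (fun n => ?_) h1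
  by_cases hn : n = 0
  · subst hn
    rw [if_pos rfl]
    have h2 : (0:ℝ) ≤ |((0 : ℤ) : ℝ)| ^ (-(5 / 4) : ℝ) := by positivity
    have h3 : ((max 1 |((0 : ℤ) : ℝ)|) ^ (5 / 4 : ℝ))⁻¹ = 1 := by
      rw [Int.cast_zero, abs_zero, max_eq_left zero_le_one, Real.one_rpow, inv_one]
    rw [h3]
    linarith
  · rw [if_neg hn, add_zero]
    have h3 : 0 < |(n : ℝ)| := abs_pos.mpr (by exact_mod_cast hn)
    rw [Real.rpow_neg h3.le]
    apply inv_anti₀ (by positivity)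
    exact Real.rpow_le_rpow h3.le (le_max_right _ _) (by norm_num)

lemma term_le {w : ℝ} (hw : 1 ≤ w) (n : ℤ) :
    (16 / max ((w ^ 4) ^ 2) ((n : ℝ) ^ 2)) ^ (3 / 4 : ℝ) ≤
      8 / w * ((max 1 |(n : ℝ)|) ^ (5 / 4 : ℝ))⁻¹ := by
  set q := max (w ^ 4) |(n : ℝ)| with hq
  have hw4 : 1 ≤ w ^ 4 := one_le_pow₀ hw
  have hq1 : 1 ≤ q := hw4.trans (le_max_left _ _)
  have hq0 : 0 < q := by linarith
  have h1 : max ((w ^ 4) ^ 2) ((n : ℝ) ^ 2) = q ^ 2 := by
    rw [← sq_abs (n : ℝ), hq]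
    rcases le_total (w ^ 4) |(n : ℝ)| with h | h
    · rw [max_eq_right h, max_eq_right (pow_le_pow_left₀ (by positivity) h 2)]
    · rw [max_eq_left h, max_eq_left (pow_le_pow_left₀ (by positivity) h 2)]
  rw [h1]
  have h2 : (16 / q ^ 2) ^ (3 / 4 : ℝ) = 8 / (q ^ (1 / 4 : ℝ) * q ^ (5 / 4 : ℝ)) := by
    have e1 : 16 / q ^ 2 = (4 / q) ^ (2 : ℝ) := by
      rw [show (2 : ℝ) = ((2 : ℕ) : ℝ) by norm_num, Real.rpow_natCast, div_pow]
      norm_num
    rw [e1, ← Real.rpow_mul (by positivity), ← Real.rpow_add hq0]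
    have e2 : (2 : ℝ) * (3 / 4) = 3 / 2 := by norm_num
    have e3 : (1 / 4 : ℝ) + 5 / 4 = 3 / 2 := by norm_num
    rw [e2, e3, Real.div_rpow (by norm_num) hq0.le]
    congr 1
    rw [show (4 : ℝ) = 2 ^ (2 : ℝ) by norm_num, ← Real.rpow_mul (by norm_num)]
    norm_num
  rw [h2]
  have h3 : w ≤ q ^ (1 / 4 : ℝ) := by
    have : w = (w ^ 4) ^ (1 / 4 : ℝ) := by
      rw [← Real.rpow_natCast, ← Real.rpow_mul (by linarith)]
      norm_num
    rw [this]
    exact Real.rpow_le_rpow (by positivity) (le_max_left _ _) (by norm_num)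
  have h4 : (max 1 |(n : ℝ)|) ^ (5 / 4 : ℝ) ≤ q ^ (5 / 4 : ℝ) := by
    apply Real.rpow_le_rpow (by positivity) _ (by norm_num)
    exact max_le hq1 (le_max_right _ _)
  have h5 : 0 < (max 1 |(n : ℝ)|) ^ (5 / 4 : ℝ) := by
    have : 0 < max 1 |(n : ℝ)| := lt_of_lt_of_le one_pos (le_max_left _ _)
    positivity
  have h6 : 8 / w * ((max 1 |(n : ℝ)|) ^ (5 / 4 : ℝ))⁻¹ =
      8 / (w * (max 1 |(n : ℝ)|) ^ (5 / 4 : ℝ)) := by
    field_simp
  rw [h6]
  apply div_le_div_of_nonneg_left (by norm_num) (by positivity)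
  exact mul_le_mul h3 h4 h5.le (by positivity)

lemma exists_M : ∃ M : ℝ, 5 ≤ M ∧
    2 * ∑' n : ℤ, ENNReal.ofReal ((16 / max (M ^ 2) ((n : ℝ) ^ 2)) ^ (3 / 4 : ℝ)) ≤ 1 / 2 := by
  set z : ℝ := ∑' n : ℤ, ((max 1 |(n : ℝ)|) ^ (5 / 4 : ℝ))⁻¹ with hz
  have hz0 : 0 ≤ z := tsum_nonneg fun n => by positivity
  set w : ℝ := 32 * (z + 1) with hw
  have hw1 : 1 ≤ w := by linarith
  have hw2 : 2 ≤ w := by linarith
  refine ⟨w ^ 4, ?_, ?_⟩
  · calc (5 : ℝ) ≤ 2 ^ 4 := by norm_num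
      _ ≤ w ^ 4 := pow_le_pow_left₀ (by norm_num) hw2 4
  · have h1 : ∑' n : ℤ, ENNReal.ofReal ((16 / max ((w ^ 4) ^ 2) ((n : ℝ) ^ 2)) ^ (3 / 4 : ℝ)) ≤
        ∑' n : ℤ, ENNReal.ofReal (8 / w * ((max 1 |(n : ℝ)|) ^ (5 / 4 : ℝ))⁻¹) :=
      ENNReal.tsum_le_tsum fun n => ENNReal.ofReal_le_ofReal (term_le hw1 n)
    have h2 : ∑' n : ℤ, ENNReal.ofReal (8 / w * ((max 1 |(n : ℝ)|) ^ (5 / 4 : ℝ))⁻¹) =
        ENNReal.ofReal (8 / w * z) := by
      rw [← ENNReal.ofReal_tsum_of_nonneg (fun n => by positivity) (summable_b.mul_left _),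
        tsum_mul_left]
    have h3 : 8 / w * z ≤ 1 / 4 := by
      rw [hw]
      have : 8 / (32 * (z + 1)) * z = z / (4 * (z + 1)) := by
        field_simp
        ring
      rw [this, div_le_div_iff₀ (by positivity) (by norm_num)]
      linarith
    have h4 : ∑' n : ℤ, ENNReal.ofReal ((16 / max ((w ^ 4) ^ 2) ((n : ℝ) ^ 2)) ^ (3 / 4 : ℝ)) ≤
        ENNReal.ofReal (1 / 4) := by
      refine h1.trans ?_
      rw [h2]
      exact ENNReal.ofReal_le_ofReal h3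
    calc 2 * ∑' n : ℤ, ENNReal.ofReal ((16 / max ((w ^ 4) ^ 2) ((n : ℝ) ^ 2)) ^ (3 / 4 : ℝ)) ≤
        2 * ENNReal.ofReal (1 / 4) := mul_le_mul_right h4 2
      _ = ENNReal.ofReal (1 / 2) := by
        rw [show (2 : ℝ≥0∞) = ENNReal.ofReal 2 by simp, ← ENNReal.ofReal_mul (by norm_num)]
        norm_num
      _ = 1 / 2 := by
        rw [ENNReal.ofReal_div_of_pos (by norm_num)]
        simp

lemma exists_c {m : ℕ} (hm : 0 < m) {ζ : ℂ} (hζ : IsPrimitiveRoot ζ m) :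
    ∃ c : ℝ, 0 < c ∧ ∀ n : ℤ, ¬ (m : ℤ) ∣ n → c ≤ normSq (ζ ^ n - 1) := by
  have h0 : ζ ≠ 0 := hζ.ne_zero hm.ne'
  let f : ℕ → ℝ := fun j => if j = 0 then 1 else normSq (ζ ^ j - 1)
  obtain ⟨j0, hj0, hmin⟩ := Finset.exists_min_image (Finset.range m) f ⟨0, Finset.mem_range.mpr hm⟩
  refine ⟨f j0, ?_, ?_⟩
  · by_cases h : j0 = 0
    · simp only [f]
      rw [if_pos h]
      exact one_pos
    · simp only [f]
      rw [if_neg h, normSq_pos, sub_ne_zero]
      intro h1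
      have h2 := hζ.dvd_of_pow_eq_one j0 h1
      have h3 := Nat.le_of_dvd (Nat.pos_of_ne_zero h) h2
      have h4 := Finset.mem_range.mp hj0
      omega
  · intro n hn
    have hm' : (0 : ℤ) < m := by exact_mod_cast hm
    have h1 : 0 ≤ n % m := Int.emod_nonneg _ hm'.ne'
    have h2 : n % m < m := Int.emod_lt_of_pos _ hm'
    have h3 : n % m ≠ 0 := fun h => hn (Int.dvd_of_emod_eq_zero h)
    obtain ⟨j, hj⟩ := Int.eq_ofNat_of_zero_le h1
    have h4 : ζ ^ n = ζ ^ j := by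
      conv_lhs => rw [← Int.mul_ediv_add_emod n m]
      rw [zpow_add₀ h0, zpow_mul, zpow_natCast, hζ.pow_eq_one, one_zpow, one_mul, hj, zpow_natCast]
    have h5 : j ∈ Finset.range m := by
      rw [Finset.mem_range]
      omega
    have h6 := hmin j h5
    have h7 : f j = normSq (ζ ^ j - 1) := by
      simp only [f]
      rw [if_neg]
      omega
    rw [h4, ← h7]
    exact h6

theorem exists_par : Nonempty Par := by
  obtain ⟨M, hM, hsum⟩ := exists_M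
  set m : ℕ := ⌈M⌉₊ + 3 with hm
  have hm0 : m ≠ 0 := by omega
  set ζ : ℂ := exp (2 * Real.pi * I / m) with hζdef
  have hprim : IsPrimitiveRoot ζ m := Complex.isPrimitiveRoot_exp m hm0
  have hnorm : ‖ζ‖ = 1 := hprim.norm'_eq_one hm0
  have hnormSq : normSq ζ = 1 := by rw [normSq_eq_norm_sq, hnorm]; norm_num
  obtain ⟨c, hc, hcs⟩ := exists_c (Nat.pos_of_ne_zero hm0) hprim
  refine ⟨{
    ζ := ζ
    hζ := hnormSq
    him := ?_
    m := m
    hm := hprim.pow_eq_one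
    L := M * (1 + 1 / c)
    M := M
    hM := hM
    hmM := ?_
    hLM := ?_
    hsep := ?_
    hsum := hsum }⟩
  · intro him
    have h1 : ζ ^ 2 = 1 := by
      have h2 : ζ.re * ζ.re = 1 := by
        rw [normSq_apply, him] at hnormSq
        linarith
      apply Complex.ext
      · rw [pow_two, mul_re, him, h2]; simp
      · rw [pow_two, mul_im, him]; simp
    have h3 := hprim.dvd_of_pow_eq_one 2 h1
    have h4 := Nat.le_of_dvd (by norm_num) h3
    omega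
  · have := Nat.le_ceil M
    rw [hm]
    push_cast
    linarith
  · have : 0 < 1 / c := by positivity
    nlinarith
  · intro n hn
    have h1 := hcs n hn
    have h2 : 0 < M ^ 2 := by positivity
    have h3 : M ^ 2 ≤ c * (M * (1 + 1 / c)) ^ 2 := by
      have : c * (M * (1 + 1 / c)) ^ 2 = M ^ 2 * (c + 2 + 1 / c) := by field_simp; ring
      rw [this]
      have h5 : 0 < 1 / c := by positivity
      nlinarith
    refine h3.trans ?_
    exact mul_le_mul_of_nonneg_right h1 (sq_nonneg _)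

end Pool.Agent.Helper97.Kap
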