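import Pool.Agent.Helper97.Kap.Group

set_option autoImplicit false
set_option linter.unusedSimpArgs false

namespace Pool.Agent.Helper97.Kap

open Complex ENNReal

lemma summable_K : Summable fun n : ℤ => (20 / (1 + (n : ℝ) ^ 2)) ^ (3 / 4 : ℝ) := by
  have h1 : Summable fun n : ℤ => (20 : ℝ) ^ (3 / 4 : ℝ) * |(n : ℝ)| ^ (-(3 / 2) : ℝ) +
      if n = 0 then (20 : ℝ) ^ (3 / 4 : ℝ) else 0 := by
    apply Summable.add
    · exact (Real.summable_abs_int_rpow (by norm_num)).mul_left _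
    · exact (hasSum_ite_eq (0 : ℤ) _).summable
  refine Summable.of_nonneg_of_le (fun n => by positivity) (fun n => ?_) h1
  by_cases hn : n = 0
  · subst hn
    rw [if_pos rfl]
    have h2 : (0:ℝ) ≤ (20 : ℝ) ^ (3 / 4 : ℝ) * |((0 : ℤ) : ℝ)| ^ (-(3 / 2) : ℝ) := by positivity
    simp only [Int.cast_zero] at h2 ⊢
    norm_num at h2 ⊢
  · rw [if_neg hn, add_zero]
    have h3 : 0 < |(n : ℝ)| := abs_pos.mpr (by exact_mod_cast hn)
    have h4 : (20 / (1 + (n : ℝ) ^ 2)) ≤ 20 * |(n : ℝ)| ^ (-2 : ℝ) := by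
      rw [Real.rpow_neg h3.le, ← div_eq_mul_inv]
      have : |(n : ℝ)| ^ (2 : ℝ) = (n : ℝ) ^ 2 := by
        rw [show (2 : ℝ) = ((2 : ℕ) : ℝ) by norm_num, Real.rpow_natCast, sq_abs]
      rw [this]
      have h5 : 0 < (n : ℝ) ^ 2 := by positivity
      apply div_le_div_of_nonneg_left (by norm_num) h5 (by linarith)
    calc (20 / (1 + (n : ℝ) ^ 2)) ^ (3 / 4 : ℝ) ≤ (20 * |(n : ℝ)| ^ (-2 : ℝ)) ^ (3 / 4 : ℝ) :=
          Real.rpow_le_rpow (by positivity) h4 (by norm_num)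
      _ = 20 ^ (3 / 4 : ℝ) * |(n : ℝ)| ^ (-(3 / 2) : ℝ) := by
          rw [Real.mul_rpow (by norm_num) (by positivity), ← Real.rpow_mul h3.le]
          norm_num

namespace Par

variable (P : Par)

/-- the group -/
noncomputable def G : Subgroup (Hyp 4 ≃ᵢ Hyp 4) := Subgroup.closure {P.g₁, P.g₂}

lemma exists_word {g : Hyp 4 ≃ᵢ Hyp 4} (hg : g ∈ P.G) :
    ∃ (n : ℤ) (k : ℕ) (w : Wd k), Red k w ∧ P.g₁ ^ n * P.val k w = g := by
  have hgen : ∀ (ε : Bool) (n : ℤ) (k : ℕ) (w : Wd k), Red k w →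
      ∃ (n' : ℤ) (k' : ℕ) (w' : Wd k'), Red k' w' ∧
        P.g₁ ^ n' * P.val k' w' = P.gen ε * (P.g₁ ^ n * P.val k w) := by
    intro ε n k w hw
    by_cases h : n = 0 ∧ head k w = some !ε
    · obtain ⟨h1, h2⟩ := h
      cases k with
      | zero => simp [head] at h2
      | succ k =>
        obtain ⟨⟨ε', n'⟩, w'⟩ := w
        have h3 : ε' = !ε := by
          have : some ε' = some !ε := h2
          exact Option.some.inj this
        refine ⟨n', k, w', hw.2, ?_⟩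
        change _ = P.gen ε * (P.g₁ ^ n * (P.gen ε' * (P.g₁ ^ n' * P.val k w')))
        rw [h1, zpow_zero, one_mul, ← mul_assoc (P.gen ε), h3, P.gen_not, one_mul]
    · refine ⟨0, k + 1, ((ε, n), w), ⟨h, hw⟩, ?_⟩
      rw [zpow_zero, one_mul]
      rfl
  unfold G at hg
  induction hg using Subgroup.closure_induction_left with
  | one => exact ⟨0, 0, (), trivial, by rw [zpow_zero, one_mul]; rfl⟩
  | mul_left x hx y hy ih =>
    obtain ⟨n, k, w, hw, rfl⟩ := ih
    rcases hx with rfl | hx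
    · exact ⟨n + 1, k, w, hw, by rw [add_comm, zpow_one_add, mul_assoc]⟩
    · rw [Set.mem_singleton_iff] at hx
      subst hx
      exact hgen true n k w hw
  | inv_mul_cancel x hx y hy ih =>
    obtain ⟨n, k, w, hw, rfl⟩ := ih
    rcases hx with rfl | hx
    · exact ⟨n - 1, k, w, hw, by rw [sub_eq_add_neg, add_comm, zpow_add, zpow_neg_one, mul_assoc]⟩
    · rw [Set.mem_singleton_iff] at hx
      subst hx
      exact hgen false n k w hw

lemma exp_bound (h : Option Bool) (X : Hyp 4) (hX : P.Good h X) (n : ℤ) :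
    Real.exp (-dist (origin 4) ((P.g₁ ^ n) X)) ≤ 20 / (1 + (n : ℝ) ^ 2) * (φ X).t := by
  obtain ⟨h1, h2, h3⟩ := P.zpow_coord n X
  obtain ⟨o1, o2, o3⟩ := φ_origin
  set Y := (P.g₁ ^ n) X with hY
  have ht := (φ X).t_pos
  have hcosh : Real.cosh (dist (origin 4) Y) =
      (1 + normSq (φ Y).z + ((φ X).y + n) ^ 2 + (φ X).t ^ 2) / (2 * (φ X).t) := by
    rw [cosh_dist_φ]
    unfold U.C
    rw [o1, o2, o3, h2, h3, zero_sub, normSq_neg]
    field_simp
    ring
  have hle : Real.cosh (dist (origin 4) Y) ≤ Real.exp (dist (origin 4) Y) := by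
    rw [Real.cosh_eq]
    have : Real.exp (-dist (origin 4) Y) ≤ Real.exp (dist (origin 4) Y) := by
      apply Real.exp_le_exp.mpr
      have : 0 ≤ dist (origin 4) Y := dist_nonneg
      linarith
    linarith
  have hy : (φ X).y ^ 2 ≤ 4 := by
    unfold Good U.N at hX
    have := normSq_nonneg ((φ X).z - P.cen h)
    nlinarith [sq_nonneg (φ X).t]
  have hn := normSq_nonneg (φ Y).z
  have hD : 1 + (n : ℝ) ^ 2 ≤ 10 * (1 + normSq (φ Y).z + ((φ X).y + n) ^ 2 + (φ X).t ^ 2) := by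
    nlinarith [sq_nonneg (2 * (φ X).y + n), sq_nonneg (φ X).t, sq_nonneg ((φ X).y + n)]
  rw [Real.exp_neg]
  have hc : 0 < Real.cosh (dist (origin 4) Y) := Real.cosh_pos _
  calc (Real.exp (dist (origin 4) Y))⁻¹ ≤ (Real.cosh (dist (origin 4) Y))⁻¹ :=
        inv_anti₀ hc hle
    _ = 2 * (φ X).t / (1 + normSq (φ Y).z + ((φ X).y + n) ^ 2 + (φ X).t ^ 2) := by
        rw [hcosh, inv_div]
    _ ≤ 20 / (1 + (n : ℝ) ^ 2) * (φ X).t := by
        rw [div_mul_eq_mul_div, div_le_div_iff₀ (by positivity) (by positivity)]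
        nlinarith

/-- The Poincaré series of the group converges at `3/4`. -/
theorem poincare : ∑' g : P.G, ENNReal.ofReal (Real.exp (-((3 / 4 : NNReal) : ℝ) *
    dist (origin 4) ((g : Hyp 4 ≃ᵢ Hyp 4) (origin 4)))) ≠ ∞ := by
  classical
  let I : Type := ℤ × (Σ k, Wd k)
  let R : Set I := {i | Red i.2.1 i.2.2}
  let v : I → (Hyp 4 ≃ᵢ Hyp 4) := fun i => P.g₁ ^ i.1 * P.val i.2.1 i.2.2
  have g₁mem : P.g₁ ∈ P.G := Subgroup.subset_closure (by simp)
  have g₂mem : P.g₂ ∈ P.G := Subgroup.subset_closure (by simp)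
  have genmem : ∀ ε, P.gen ε ∈ P.G := by
    intro ε
    cases ε
    · exact P.G.inv_mem g₂mem
    · exact g₂mem
  have valmem : ∀ k (w : Wd k), P.val k w ∈ P.G := by
    intro k
    induction k with
    | zero => intro w; exact P.G.one_mem
    | succ k ih =>
      intro w
      exact P.G.mul_mem (genmem _) (P.G.mul_mem (P.G.zpow_mem g₁mem _) (ih _))
  have vmem : ∀ i, v i ∈ P.G := fun i => P.G.mul_mem (P.G.zpow_mem g₁mem _) (valmem _ _)
  let f : R → P.G := fun i => ⟨v i, vmem i⟩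
  have hf : Function.Surjective f := by
    rintro ⟨g, hg⟩
    obtain ⟨n, k, w, hw, h⟩ := P.exists_word hg
    exact ⟨⟨(n, ⟨k, w⟩), hw⟩, Subtype.ext h⟩
  let E : I → ℝ≥0∞ := fun i => ENNReal.ofReal (Real.exp (-((3 / 4 : NNReal) : ℝ) *
    dist (origin 4) (v i (origin 4))))
  let K : ℤ → ℝ≥0∞ := fun n => ENNReal.ofReal ((20 / (1 + (n : ℝ) ^ 2)) ^ (3 / 4 : ℝ))
  have hK : ∑' n, K n ≠ ∞ := summable_K.tsum_ofReal_ne_top
  have hpt : ∀ i, R.indicator E i ≤ K i.1 * P.W i.2.1 i.2.2 := by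
    rintro ⟨n, k, w⟩
    by_cases h : Red k w
    · have hmem : ((n, ⟨k, w⟩) : I) ∈ R := h
      rw [Set.indicator_of_mem hmem]
      unfold W
      simp only [K, E]
      rw [if_pos h, ← ENNReal.ofReal_mul (by positivity),
        ← Real.mul_rpow (by positivity) (U.t_pos _).le]
      apply ENNReal.ofReal_le_ofReal
      have h1 := P.exp_bound (head k w) _ (P.good_val k w h) n
      have h2 : Real.exp (-((3 / 4 : NNReal) : ℝ) * dist (origin 4) (v (n, ⟨k, w⟩) (origin 4))) =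
          (Real.exp (-dist (origin 4) ((P.g₁ ^ n) (P.val k w (origin 4))))) ^ (3 / 4 : ℝ) := by
        rw [← Real.exp_mul]
        congr 1
        have : v (n, ⟨k, w⟩) (origin 4) = (P.g₁ ^ n) (P.val k w (origin 4)) := rfl
        rw [this]
        push_cast
        ring
      rw [h2]
      exact Real.rpow_le_rpow (Real.exp_pos _).le h1 (by norm_num)
    · have hmem : ((n, ⟨k, w⟩) : I) ∉ R := h
      rw [Set.indicator_of_notMem hmem]
      exact zero_le
  have hfin : ∑' i : I, K i.1 * P.W i.2.1 i.2.2 ≠ ∞ := by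
    have e1 : ∑' i : I, K i.1 * P.W i.2.1 i.2.2 =
        ∑' n : ℤ, ∑' a : (Σ k, Wd k), K n * P.W a.1 a.2 :=
      ENNReal.tsum_prod (f := fun (n : ℤ) (a : Σ k, Wd k) => K n * P.W a.1 a.2)
    rw [e1]
    simp_rw [ENNReal.tsum_mul_left]
    rw [ENNReal.tsum_mul_right]
    apply ENNReal.mul_ne_top hK
    rw [ENNReal.tsum_sigma (fun k (w : Wd k) => P.W k w)]
    have e2 : ∑' k, ∑' w : Wd k, P.W k w ≤ ∑' k : ℕ, (1 / 2 : ℝ≥0∞) ^ k :=
      ENNReal.tsum_le_tsum fun k => P.tsum_W k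
    refine ne_top_of_le_ne_top ?_ e2
    rw [ENNReal.tsum_geometric]
    simp
  refine ne_top_of_le_ne_top hfin ?_
  calc ∑' g : P.G, ENNReal.ofReal (Real.exp (-((3 / 4 : NNReal) : ℝ) *
        dist (origin 4) ((g : Hyp 4 ≃ᵢ Hyp 4) (origin 4))))
      ≤ ∑' i : R, ENNReal.ofReal (Real.exp (-((3 / 4 : NNReal) : ℝ) *
        dist (origin 4) (((f i : P.G) : Hyp 4 ≃ᵢ Hyp 4) (origin 4)))) :=
        ENNReal.tsum_le_tsum_comp_of_surjective hf _
    _ = ∑' i : R, E i := rfl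
    _ = ∑' i, R.indicator E i := tsum_subtype R E
    _ ≤ ∑' i : I, K i.1 * P.W i.2.1 i.2.2 := ENNReal.tsum_le_tsum hpt

end Par

/-- Convergence of the Poincaré series implies discreteness. -/
theorem discrete_of_poincare {n : ℕ} (G : Subgroup (Hyp n ≃ᵢ Hyp n)) (σ : NNReal) (hσ : 0 < σ)
    (hsum : ∑' g : G, ENNReal.ofReal (Real.exp (-(σ : ℝ) *
      dist (origin n) ((g : Hyp n ≃ᵢ Hyp n) (origin n)))) ≠ ∞) : IsDiscreteGroup G := by
  intro x r
  have hσ' : (0 : ℝ) < σ := by exact_mod_cast hσ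
  set ρ := 2 * dist (origin n) x + r with hρ
  have h1 : {g : G | ENNReal.ofReal (Real.exp (-(σ : ℝ) * ρ)) ≤ ENNReal.ofReal (Real.exp (-(σ : ℝ) *
      dist (origin n) ((g : Hyp n ≃ᵢ Hyp n) (origin n))))}.Finite :=
    ENNReal.finite_const_le_of_tsum_ne_top hsum (by
      rw [ne_eq, ENNReal.ofReal_eq_zero, not_le]
      exact Real.exp_pos _)
  refine (h1.image (fun g : G => (g : Hyp n ≃ᵢ Hyp n))).subset ?_
  rintro g ⟨hg, hd⟩
  refine ⟨⟨g, hg⟩, ?_, rfl⟩
  change ENNReal.ofReal _ ≤ ENNReal.ofReal _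
  apply ENNReal.ofReal_le_ofReal
  apply Real.exp_le_exp.mpr
  have h2 : dist (origin n) (g (origin n)) ≤ ρ := by
    have h3 := dist_triangle (origin n) x (g (origin n))
    have h4 := dist_triangle x (g x) (g (origin n))
    have h5 := g.isometry.dist_eq x (origin n)
    rw [h5, dist_comm x (origin n)] at h4
    linarith
  change -(σ : ℝ) * ρ ≤ -(σ : ℝ) * dist (origin n) (g (origin n))
  nlinarith

end Pool.Agent.Helper97.Kap
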