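import Pool.Agent.Helper97.Kap.Defs

set_option autoImplicit false

namespace Pool.Agent.Helper97.Kap

open Filter Topology

variable {n : ℕ}

/-- vector of a point -/
def vec (x : Hyp n) : EuclideanSpace ℝ (Fin n) := x

/-- point of a vector -/
def ofVec (x : EuclideanSpace ℝ (Fin n)) : Hyp n := x

@[simp] lemma vec_ofVec (x : EuclideanSpace ℝ (Fin n)) : vec (ofVec x) = x := rfl
@[simp] lemma ofVec_vec (x : Hyp n) : ofVec (vec x) = x := rfl

lemma cosh_dist_vec (x y : Hyp n) : Real.cosh (dist x y) = Model.B (vec x) (vec y) :=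
  cosh_dist x y

lemma dist_vec (x y : Hyp n) : dist x y = Model.hd (vec x) (vec y) := rfl

lemma continuous_ofVec : Continuous (ofVec : EuclideanSpace ℝ (Fin n) → Hyp n) := by
  rw [continuous_iff_continuousAt]
  intro x
  rw [ContinuousAt, tendsto_iff_dist_tendsto_zero]
  have h1 : Continuous (fun y : EuclideanSpace ℝ (Fin n) => Model.hd y x) :=
    Model.continuous_hd.comp (by fun_prop : Continuous fun y : EuclideanSpace ℝ (Fin n) => (y, x))
  have h2 := h1.tendsto x
  rw [Model.hd_self] at h2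
  exact h2

/-- The chart centred at `z`. -/
noncomputable def boost (z : Hyp n) (Y : EuclideanSpace ℝ (Fin n)) : Hyp n :=
  ofVec (Model.T (vec z) Y)

lemma continuous_boost (z : Hyp n) : Continuous (boost z) :=
  continuous_ofVec.comp (Model.continuous_T _)

lemma boost_zero (z : Hyp n) : boost z 0 = z := by
  unfold boost; rw [Model.T_zero]; rfl

lemma boost_surj (z x : Hyp n) : ∃ Y, boost z Y = x :=
  ⟨Model.T (-(vec z)) (vec x), by unfold boost; rw [Model.T_T_neg]; rfl⟩

/-- signed function of a half-space -/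
noncomputable def F (u v x : Hyp n) : ℝ := Real.cosh (dist x v) - Real.cosh (dist x u)

lemma F_nonneg_iff {u v x : Hyp n} : 0 ≤ F u v x ↔ dist x u ≤ dist x v := by
  unfold F
  rw [sub_nonneg, Real.cosh_le_cosh, abs_of_nonneg dist_nonneg, abs_of_nonneg dist_nonneg]

lemma F_pos_iff {u v x : Hyp n} : 0 < F u v x ↔ dist x u < dist x v := by
  unfold F
  rw [sub_pos, Real.cosh_lt_cosh, abs_of_nonneg dist_nonneg, abs_of_nonneg dist_nonneg]

lemma F_neg (u v x : Hyp n) : F v u x = - F u v x := by unfold F; ring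

lemma continuous_F (u v : Hyp n) : Continuous (F u v) := by
  unfold F
  fun_prop

lemma F_map (g : Hyp n ≃ᵢ Hyp n) (u v x : Hyp n) : F (g u) (g v) (g x) = F u v x := by
  unfold F
  rw [g.isometry.dist_eq, g.isometry.dist_eq]

lemma F_map' (g : Hyp n ≃ᵢ Hyp n) (u v x : Hyp n) : F u v (g x) = F (g⁻¹ u) (g⁻¹ v) x := by
  rw [← F_map g (g⁻¹ u) (g⁻¹ v) x]
  congr 1
  · exact (g.apply_symm_apply u).symm
  · exact (g.apply_symm_apply v).symm

lemma normal {u v z : Hyp n} (huv : u ≠ v) (hz : F u v z = 0) :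
    ∃ a : EuclideanSpace ℝ (Fin n), a ≠ 0 ∧ ∀ Y, F u v (boost z Y) = inner ℝ Y a := by
  refine ⟨Model.T (-(vec z)) (vec u) - Model.T (-(vec z)) (vec v), ?_, ?_⟩
  · intro h
    rw [sub_eq_zero] at h
    have h2 := congrArg (Model.T (vec z)) h
    rw [Model.T_T_neg, Model.T_T_neg] at h2
    exact huv h2
  · have key : ∀ (w : Hyp n) Y, Real.cosh (dist (boost z Y) w) =
        Model.s Y * Model.s (Model.T (-(vec z)) (vec w)) - inner ℝ Y (Model.T (-(vec z)) (vec w)) := by
      intro w Y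
      rw [cosh_dist_vec, ← Model.B_T (-(vec z))]
      unfold boost
      rw [vec_ofVec, Model.T_neg_T]
      rfl
    have h0 : Model.s (Model.T (-(vec z)) (vec v)) = Model.s (Model.T (-(vec z)) (vec u)) := by
      have h1 := key u 0
      have h2 := key v 0
      rw [boost_zero, Model.s_zero, inner_zero_left, one_mul, sub_zero] at h1 h2
      unfold F at hz
      rw [← h1, ← h2]
      linarith
    intro Y
    unfold F
    rw [key, key, h0, inner_sub_right]
    ring

lemma eventually_boost {V : Set (Hyp n)} {z : Hyp n} (hV : V ∈ 𝓝 z) (Y : EuclideanSpace ℝ (Fin n)) :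
    ∀ᶠ ε : ℝ in 𝓝[>] 0, boost z (ε • Y) ∈ V := by
  have h1 : Continuous fun ε : ℝ => boost z (ε • Y) :=
    (continuous_boost z).comp (by fun_prop)
  have h2 : Tendsto (fun ε : ℝ => boost z (ε • Y)) (𝓝 0) (𝓝 z) := by
    have := h1.tendsto 0
    rwa [zero_smul, boost_zero] at this
  exact (h2.mono_left nhdsWithin_le_nhds) hV

lemma exists_boost {V : Set (Hyp n)} {z : Hyp n} (hV : V ∈ 𝓝 z) (Y : EuclideanSpace ℝ (Fin n)) :
    ∃ ε : ℝ, 0 < ε ∧ boost z (ε • Y) ∈ V := by
  have h := (eventually_boost hV Y).and (self_mem_nhdsWithin)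
  obtain ⟨ε, h1, h2⟩ := h.exists
  exact ⟨ε, h2, h1⟩

lemma interior_half {u v : Hyp n} (huv : u ≠ v) :
    interior {x | dist x u ≤ dist x v} = {x | 0 < F u v x} := by
  apply Set.Subset.antisymm
  · intro x hx
    have h0 : x ∈ {x | dist x u ≤ dist x v} := interior_subset hx
    have h1 : 0 ≤ F u v x := F_nonneg_iff.mpr h0
    rcases h1.lt_or_eq with h | h
    · exact h
    · exfalso
      obtain ⟨a, ha, hY⟩ := normal huv h.symm
      obtain ⟨ε, hε, h2⟩ := exists_boost (mem_interior_iff_mem_nhds.mp hx) (-a)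
      have h3 : 0 ≤ F u v (boost x (ε • -a)) := F_nonneg_iff.mpr h2
      rw [hY, inner_smul_left, inner_neg_left, real_inner_self_eq_norm_sq] at h3
      simp only [conj_trivial] at h3
      have h4 : 0 < ‖a‖ := norm_pos_iff.mpr ha
      nlinarith [mul_pos hε (pow_pos h4 2)]
  · apply interior_maximal
    · intro x hx
      exact F_nonneg_iff.mp (le_of_lt hx)
    · exact isOpen_lt continuous_const (continuous_F u v)

/-- A tiling by a region outside of half-spaces. -/
structure Tiling (G : Subgroup (Hyp n ≃ᵢ Hyp n)) {J : Type*} (u v : J → Hyp n) : Prop where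
  ne : ∀ j, u j ≠ v j
  sep : ∀ i j, i ≠ j → ∀ z, 0 ≤ F (u i) (v i) z → 0 ≤ F (u j) (v j) z → False
  cov : ∀ x, ∃ g ∈ G, ∀ j, F (u j) (v j) (g x) ≤ 0
  tile : ∀ g ∈ G, ∀ x, (∀ j, F (u j) (v j) x < 0) → (∀ j, F (u j) (v j) (g x) < 0) → g = 1

/-- proportional normals -/
lemma prop_of_opposite {u v u' v' z : Hyp n} (h : u ≠ v) (h' : u' ≠ v') (hz : F u v z = 0)
    (hz' : F u' v' z = 0) (hd : ∀ x, 0 < F u v x → 0 < F u' v' x → False) :
    ∃ κ : ℝ, 0 < κ ∧ ∀ x, F u' v' x = -κ * F u v x := by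
  obtain ⟨a, ha, hY⟩ := normal h hz
  obtain ⟨b, hb, hY'⟩ := normal h' hz'
  have ha' : 0 < ‖a‖ := norm_pos_iff.mpr ha
  have hb' : 0 < ‖b‖ := norm_pos_iff.mpr hb
  have h1 : ‖a‖ * ‖b‖ + inner ℝ a b ≤ 0 := by
    by_contra hcon
    push Not at hcon
    apply hd (boost z (‖b‖ • a + ‖a‖ • b))
    · rw [hY, inner_add_left, inner_smul_left, inner_smul_left, real_inner_self_eq_norm_sq,
        real_inner_comm]
      simp only [conj_trivial]
      have : ‖b‖ * ‖a‖ ^ 2 + ‖a‖ * inner ℝ a b = ‖a‖ * (‖a‖ * ‖b‖ + inner ℝ a b) := by ring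
      rw [this]
      positivity
    · rw [hY', inner_add_left, inner_smul_left, inner_smul_left, real_inner_self_eq_norm_sq]
      simp only [conj_trivial]
      have : ‖b‖ * inner ℝ a b + ‖a‖ * ‖b‖ ^ 2 = ‖b‖ * (‖a‖ * ‖b‖ + inner ℝ a b) := by ring
      rw [this]
      positivity
  have h2 : inner ℝ (-a) b = ‖-a‖ * ‖b‖ := by
    rw [norm_neg]
    apply le_antisymm
    · have := real_inner_le_norm (-a) b
      rwa [norm_neg] at this
    · rw [inner_neg_left]; linarith
  rw [inner_eq_norm_mul_iff_real, norm_neg] at h2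
  refine ⟨‖b‖ / ‖a‖, by positivity, fun x => ?_⟩
  obtain ⟨Y, rfl⟩ := boost_surj z x
  rw [hY, hY']
  have h3 : b = (-(‖b‖ / ‖a‖)) • a := by
    have h4 : ‖a‖ • b = -(‖b‖ • a) := by rw [← h2, smul_neg]
    have h5 : b = ‖a‖⁻¹ • (‖a‖ • b) := by rw [smul_smul, inv_mul_cancel₀ ha'.ne', one_smul]
    calc b = ‖a‖⁻¹ • (‖a‖ • b) := h5
      _ = ‖a‖⁻¹ • (-(‖b‖ • a)) := by rw [h4]
      _ = (-(‖b‖ / ‖a‖)) • a := by
        rw [smul_neg, smul_smul, neg_smul]
        congr 2
        ring
  calc inner ℝ Y b = inner ℝ Y ((-(‖b‖ / ‖a‖)) • a) := by rw [← h3]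
    _ = -(‖b‖ / ‖a‖) * inner ℝ Y a := by rw [inner_smul_right]

lemma sep_of_disjoint {u v u' v' : Hyp n} (h : u ≠ v) (h' : u' ≠ v')
    (hd : ∀ x, 0 < F u v x → 0 < F u' v' x → False)
    (hP : ∃ x, F u v x < 0 ∧ F u' v' x ≤ 0) (z : Hyp n) (hz : 0 ≤ F u v z)
    (hz' : 0 ≤ F u' v' z) : False := by
  rcases hz.lt_or_eq with h1 | h1
  · rcases hz'.lt_or_eq with h2 | h2
    · exact hd z h1 h2
    · obtain ⟨b, hb, hY⟩ := normal h' h2.symm
      have hV : {x | 0 < F u v x} ∈ 𝓝 z :=
        (isOpen_lt continuous_const (continuous_F u v)).mem_nhds h1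
      obtain ⟨ε, hε, h3⟩ := exists_boost hV b
      apply hd _ h3
      rw [hY, inner_smul_left, real_inner_self_eq_norm_sq]
      simp only [conj_trivial]
      have h4 : 0 < ‖b‖ := norm_pos_iff.mpr hb
      positivity
  · rcases hz'.lt_or_eq with h2 | h2
    · obtain ⟨b, hb, hY⟩ := normal h h1.symm
      have hV : {x | 0 < F u' v' x} ∈ 𝓝 z :=
        (isOpen_lt continuous_const (continuous_F u' v')).mem_nhds h2
      obtain ⟨ε, hε, h3⟩ := exists_boost hV b
      refine hd _ ?_ h3
      rw [hY, inner_smul_left, real_inner_self_eq_norm_sq]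
      simp only [conj_trivial]
      have h4 : 0 < ‖b‖ := norm_pos_iff.mpr hb
      positivity
    · obtain ⟨κ, hκ, hF⟩ := prop_of_opposite h h' h1.symm h2.symm hd
      obtain ⟨x, hx1, hx2⟩ := hP
      rw [hF x] at hx2
      nlinarith

instance : ProperSpace (Hyp n) := by
  constructor
  intro x r
  have h0 : ∀ R : ℝ, IsCompact (Metric.closedBall (origin n) R) := by
    intro R
    by_cases hR : R < 0
    · rw [Metric.closedBall_eq_empty.mpr hR]; exact isCompact_empty
    push Not at hR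
    have h1 : Metric.closedBall (origin n) R =
        ofVec '' (Metric.closedBall (0 : EuclideanSpace ℝ (Fin n)) (Real.sinh R)) := by
      ext y
      constructor
      · intro hy
        refine ⟨vec y, ?_, rfl⟩
        rw [mem_closedBall_zero_iff, ← Model.sinh_hd_zero]
        apply Real.sinh_le_sinh.mpr
        rw [Metric.mem_closedBall, dist_comm] at hy
        exact hy
      · rintro ⟨x, hx, rfl⟩
        rw [mem_closedBall_zero_iff, ← Model.sinh_hd_zero, Real.sinh_le_sinh] at hx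
        rw [Metric.mem_closedBall, dist_comm]
        exact hx
    rw [h1]
    exact (isCompact_closedBall _ _).image continuous_ofVec
  refine (h0 (dist x (origin n) + r)).of_isClosed_subset Metric.isClosed_closedBall ?_
  intro y hy
  rw [Metric.mem_closedBall] at hy ⊢
  have := dist_triangle y x (origin n)
  linarith

instance : Nonempty (Hyp n) := ⟨origin n⟩

theorem tiling_of_schottky {G : Subgroup (Hyp n ≃ᵢ Hyp n)} [Countable G]
    (h : IsClassicalSchottky G) :
    ∃ (k : ℕ) (u v : Fin k ⊕ Fin k → Hyp n), Tiling G u v := by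
  obtain ⟨k, B, g, hB, hdisj, -, hcov, htile⟩ := h
  choose u v huv hBuv using hB
  refine ⟨k, u, v, ?_⟩
  have hint : ∀ j, interior (B j) = {x | 0 < F (u j) (v j) x} := fun j => by
    rw [hBuv j]; exact interior_half (huv j)
  have hdisj' : ∀ i j, i ≠ j → ∀ x, 0 < F (u i) (v i) x → 0 < F (u j) (v j) x → False := by
    intro i j hij x h1 h2
    have : Disjoint (interior (B i)) (interior (B j)) := hdisj hij
    rw [hint, hint] at this
    exact Set.disjoint_left.mp this h1 h2
  set P : Set (Hyp n) := {x | ∀ j, x ∉ interior (B j)} with hPdef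
  have hP : ∀ x, x ∈ P ↔ ∀ j, F (u j) (v j) x ≤ 0 := by
    intro x
    constructor
    · intro h j
      have : x ∉ interior (B j) := h j
      rw [hint] at this
      exact not_lt.mp this
    · intro h j
      change x ∉ interior (B j)
      rw [hint]
      exact not_lt.mpr (h j)
  have hPclosed : IsClosed P := by
    have : P = ⋂ j, {x | F (u j) (v j) x ≤ 0} := by
      ext x
      rw [hP, Set.mem_iInter]
      rfl
    rw [this]
    exact isClosed_iInter fun j => isClosed_le (continuous_F _ _) continuous_const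
  have hPint : (interior P).Nonempty := by
    obtain ⟨γ, hγ⟩ := nonempty_interior_of_iUnion_of_closed
      (f := fun g : G => (g : Hyp n ≃ᵢ Hyp n) ⁻¹' P)
      (fun g => hPclosed.preimage (g : Hyp n ≃ᵢ Hyp n).continuous) (by
        ext x
        simp only [Set.mem_iUnion, Set.mem_preimage, Set.mem_univ, iff_true]
        obtain ⟨g, hg, hx⟩ := hcov x
        exact ⟨⟨g, hg⟩, hx⟩)
    have h1 : interior ((γ : Hyp n ≃ᵢ Hyp n) ⁻¹' P) = (γ : Hyp n ≃ᵢ Hyp n) ⁻¹' interior P := by
      exact ((γ : Hyp n ≃ᵢ Hyp n).toHomeomorph.preimage_interior P).symm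
    change (interior ((γ : Hyp n ≃ᵢ Hyp n) ⁻¹' P)).Nonempty at hγ
    rw [h1] at hγ
    obtain ⟨x, hx⟩ := hγ
    exact ⟨_, hx⟩
  have hneg : ∀ x, (∀ j, F (u j) (v j) x < 0) → x ∈ interior P := by
    intro x hx
    have h1 : IsOpen (⋂ j, {x | F (u j) (v j) x < 0}) :=
      isOpen_iInter_of_finite fun j => isOpen_lt (continuous_F _ _) continuous_const
    have h2 : (⋂ j, {x | F (u j) (v j) x < 0}) ⊆ P := by
      intro y hy
      rw [Set.mem_iInter] at hy
      rw [hP]
      exact fun j => (hy j).le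
    exact interior_maximal h2 h1 (Set.mem_iInter.mpr hx)
  refine ⟨huv, ?_, ?_, ?_⟩
  · intro i j hij z h1 h2
    refine sep_of_disjoint (huv i) (huv j) (hdisj' i j hij) ?_ z h1 h2
    -- a point of the interior of P off the face i
    obtain ⟨x, hx⟩ := hPint
    have hx1 := (hP x).mp (interior_subset hx)
    rcases (hx1 i).lt_or_eq with h3 | h3
    · exact ⟨x, h3, hx1 j⟩
    · obtain ⟨a, ha, hY⟩ := normal (huv i) h3
      obtain ⟨ε, hε, h4⟩ := exists_boost (mem_interior_iff_mem_nhds.mp hx) (-a)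
      refine ⟨_, ?_, (hP _).mp h4 j⟩
      rw [hY, inner_smul_left, inner_neg_left, real_inner_self_eq_norm_sq]
      simp only [conj_trivial]
      have h5 : 0 < ‖a‖ := norm_pos_iff.mpr ha
      nlinarith [mul_pos hε (pow_pos h5 2)]
  · intro x
    obtain ⟨g, hg, hx⟩ := hcov x
    exact ⟨g, hg, (hP _).mp hx⟩
  · intro g hg x h1 h2
    by_contra hne
    have h3 := htile g hg hne
    exact Set.disjoint_left.mp h3 ⟨x, hneg x h1, rfl⟩ (hneg _ h2)

namespace Tiling

variable {G : Subgroup (Hyp n ≃ᵢ Hyp n)} {J : Type*} {u v : J → Hyp n}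

/-- near a point of a face the exterior of the half-space is in the tile -/
lemma near_face [Finite J] (hT : Tiling G u v) {i : J} {z : Hyp n} (hz : F (u i) (v i) z = 0) :
    ∀ᶠ x in 𝓝 z, F (u i) (v i) x < 0 → ∀ j, F (u j) (v j) x < 0 := by
  have h1 : ∀ j, j ≠ i → F (u j) (v j) z < 0 := by
    intro j hj
    by_contra hcon
    push Not at hcon
    exact hT.sep i j hj.symm z hz.ge hcon
  have h2 : ∀ᶠ x in 𝓝 z, ∀ j, j ≠ i → F (u j) (v j) x < 0 := by
    rw [eventually_all]
    intro j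
    by_cases hj : j = i
    · exact Eventually.of_forall fun x h => absurd hj h
    · have := (continuous_F (u j) (v j)).tendsto z
      filter_upwards [this.eventually_lt_const (h1 j hj)] with x hx _
      exact hx
  filter_upwards [h2] with x hx h3 j
  by_cases hj : j = i
  · rw [hj]; exact h3
  · exact hx j hj

lemma face_not_mem [Finite J] (hT : Tiling G u v) {g : Hyp n ≃ᵢ Hyp n} (hg : g ∈ G) {i : J}
    {z : Hyp n} (hz : F (u i) (v i) z = 0) (h : ∀ j, F (u j) (v j) (g z) < 0) : False := by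
  obtain ⟨a, ha, hY⟩ := normal (hT.ne i) hz
  have h1 : ∀ᶠ x in 𝓝 z, ∀ j, F (u j) (v j) (g x) < 0 := by
    rw [eventually_all]
    intro j
    have := ((continuous_F (u j) (v j)).comp g.continuous).tendsto z
    exact this.eventually_lt_const (h j)
  obtain ⟨ε, hε, h2, h3⟩ := exists_boost (h1.and (hT.near_face hz)) (-a)
  have h4 : F (u i) (v i) (boost z (ε • -a)) < 0 := by
    rw [hY, inner_smul_left, inner_neg_left, real_inner_self_eq_norm_sq]
    simp only [conj_trivial]
    have h5 : 0 < ‖a‖ := norm_pos_iff.mpr ha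
    nlinarith [mul_pos hε (pow_pos h5 2)]
  have h5 := hT.tile g hg _ (h3 h4) h2
  rw [h5] at h
  have := h i
  change F (u i) (v i) z < 0 at this
  linarith

lemma faces_aux [Finite J] (hT : Tiling G u v) {g : Hyp n ≃ᵢ Hyp n} (hg : g ∈ G) {i j : J}
    {z : Hyp n} (hz : F (u i) (v i) z = 0) (hz' : F (u j) (v j) (g z) = 0) (x : Hyp n) :
    F (u i) (v i) x = 0 ↔ F (u j) (v j) (g x) = 0 := by
  obtain ⟨a, ha, hY⟩ := normal (hT.ne i) hz
  rw [F_map'] at hz'
  have hne : g⁻¹ (u j) ≠ g⁻¹ (v j) := fun h => hT.ne j (g⁻¹.injective h)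
  obtain ⟨b, hb, hY'⟩ := normal hne hz'
  have key : ∀ Y : EuclideanSpace ℝ (Fin n), inner ℝ Y b = 0 → 0 ≤ inner ℝ Y a := by
    intro Y hYb
    obtain ⟨ε, hε, h3⟩ := exists_boost (hT.near_face hz) Y
    by_contra hcon
    push Not at hcon
    have h4 : F (u i) (v i) (boost z (ε • Y)) < 0 := by
      rw [hY, inner_smul_left]
      simp only [conj_trivial]
      exact mul_neg_of_pos_of_neg hε hcon
    have h5 : F (u j) (v j) (g (boost z (ε • Y))) = 0 := by
      rw [F_map', hY', inner_smul_left, hYb, mul_zero]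
    refine hT.face_not_mem (g := g⁻¹) (G.inv_mem hg) h5 ?_
    have h6 : g⁻¹ (g (boost z (ε • Y))) = boost z (ε • Y) := g.symm_apply_apply _
    rw [h6]
    exact h3 h4
  have key2 : ∀ Y : EuclideanSpace ℝ (Fin n), inner ℝ Y b = 0 → inner ℝ Y a = 0 := by
    intro Y hYb
    apply le_antisymm _ (key Y hYb)
    have h1 := key (-Y) (by rw [inner_neg_left, hYb, neg_zero])
    rw [inner_neg_left] at h1
    linarith
  have hb' : 0 < ‖b‖ := norm_pos_iff.mpr hb
  set κ : ℝ := inner ℝ a b / ‖b‖ ^ 2 with hκ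
  have h7 : a = κ • b := by
    have h8 : inner ℝ (a - κ • b) b = 0 := by
      rw [inner_sub_left, inner_smul_left, real_inner_self_eq_norm_sq, hκ]
      simp only [conj_trivial]
      field_simp
      ring
    have h9 := key2 _ h8
    have h10 : inner ℝ (a - κ • b) (a - κ • b) = 0 := by
      rw [inner_sub_right, inner_smul_right, h9, h8]; ring
    rw [inner_self_eq_zero, sub_eq_zero] at h10
    exact h10
  have hκ0 : κ ≠ 0 := by
    intro h
    rw [h, zero_smul] at h7
    exact ha h7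
  obtain ⟨Y, rfl⟩ := boost_surj z x
  rw [hY, F_map', hY', h7, inner_smul_right]
  constructor
  · intro h
    rcases mul_eq_zero.mp h with h | h
    · exact absurd h hκ0
    · exact h
  · intro h
    rw [h, mul_zero]

/-- Two translates of faces that meet are equal. -/
theorem faces [Finite J] (hT : Tiling G u v) {g h : Hyp n ≃ᵢ Hyp n} (hg : g ∈ G) (hh : h ∈ G)
    {i j : J} {z : Hyp n} (hz : F (u i) (v i) (g z) = 0) (hz' : F (u j) (v j) (h z) = 0)
    (x : Hyp n) : F (u i) (v i) (g x) = 0 ↔ F (u j) (v j) (h x) = 0 := by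
  have h1 := hT.faces_aux (g := h * g⁻¹) (G.mul_mem hh (G.inv_mem hg)) (i := i) (j := j) hz (by
    rw [IsometryEquiv.mul_apply]
    have : g⁻¹ (g z) = z := g.symm_apply_apply z
    rw [this]; exact hz') (g x)
  rw [IsometryEquiv.mul_apply] at h1
  have : g⁻¹ (g x) = x := g.symm_apply_apply x
  rw [this] at h1
  exact h1

end Tiling

end Pool.Agent.Helper97.Kap
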